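import Pool.Agent.H54.OWN.Beta
import Pool.Agent.H17.OWN.Tri6

/-!
# A slope which is closed: the count and the separation

`slope_few`: for two samples with the same record `G` the increments of `U` and `D` are tied by the
slope `β`, a function of the record; if `|D - D'| < m` has probability at most `δ`, then the slope has
few bits given the first line and `(U, D)` of the second line.

`sep`: if `⌊D / m⌋` has more than `log (2 / δ)` bits given `G` for every law of density at most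
`2 / δ`, then `|D - D'| < m` has probability at most `3 δ`.

`closed_slope`: both together with `betac`.
-/

set_option autoImplicit false

namespace Pool.OWN54

open Finset Real
open Pool.Agent.H49.Ent Pool.Agent.H32.Dense Pool.STK Pool.CH30 Pool.KM7 Pool.OWN17

variable {Ω Λ 𝒯 κ 𝒢 𝒟 𝒰 𝒬 ℬ 𝒵 : Type} [Fintype Ω] {p : Ω → ℝ}

theorem slope_few (hp : IsLaw p) {L : Ω → Λ} (Tc : Ω → κ) {G : Ω → 𝒢} {U D : Ω → ℤ} {β : Ω → ℝ}
    (hLU : Det p L U) (hLD : Det p L D) {K m δ : ℝ} (hK : 0 < K) (hm : 0 < m) (W : ℕ)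
    (h : ∀ ω ω', 0 < p ω → 0 < p ω' → G ω = G ω' →
      |((U ω' : ℝ) - U ω) - β ω * ((D ω' : ℝ) - D ω)| ≤ K)
    (hW : ∀ ω, 0 < p ω → |⌊β ω * m / K⌋| ≤ (W : ℤ))
    (hsep : law (P2 p G) (fun w => |(D w.1 : ℝ) - D w.2| < m) True ≤ δ) :
    CH (P2 p G) (fun w => ⌊β w.1 * m / K⌋) (fun w => (L w.1, (Tc w.1, (U w.2, D w.2)))) ≤
      Real.log 7 + δ * Real.log (2 * W + 1) := by
  classical
  have h0 := hp.nonneg
  set q := P2 p G with hq
  have hql : IsLaw q := P2_isLaw hp G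
  -- reference values of a line
  set ur : Λ → ℤ := fun l => if hh : ∃ ω, 0 < p ω ∧ L ω = l then U hh.choose else 0 with hur
  set dr : Λ → ℤ := fun l => if hh : ∃ ω, 0 < p ω ∧ L ω = l then D hh.choose else 0 with hdr
  have hur' : ∀ ω, 0 < p ω → ur (L ω) = U ω := by
    intro ω hω
    have hh : ∃ ω', 0 < p ω' ∧ L ω' = L ω := ⟨ω, hω, rfl⟩
    rw [hur]
    simp only
    rw [dif_pos hh]
    exact hLU _ _ hh.choose_spec.1 hω hh.choose_spec.2
  have hdr' : ∀ ω, 0 < p ω → dr (L ω) = D ω := by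
    intro ω hω
    have hh : ∃ ω', 0 < p ω' ∧ L ω' = L ω := ⟨ω, hω, rfl⟩
    rw [hdr]
    simp only
    rw [dif_pos hh]
    exact hLD _ _ hh.choose_spec.1 hω hh.choose_spec.2
  set Gd : Λ × (κ × (ℤ × ℤ)) → Prop := fun z => m ≤ |(dr z.1 : ℝ) - z.2.2.2| with hGd
  set c : Λ × (κ × (ℤ × ℤ)) → ℝ := fun z =>
    (((z.2.2.1 : ℝ) - ur z.1) / ((z.2.2.2 : ℝ) - dr z.1)) * m / K with hc
  have key := cnt hql (fun w : Ω × Ω => ⌊β w.1 * m / K⌋)
    (fun w => (L w.1, (Tc w.1, (U w.2, D w.2)))) Gd c 2 W ?_ ?_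
  · refine key.trans ?_
    have e1 : law q (fun w => ¬ Gd (L w.1, (Tc w.1, (U w.2, D w.2)))) True ≤ δ := by
      refine le_trans (law_imp hql fun w hw hh => ?_) hsep
      obtain ⟨a, _, _⟩ := (P2_pos hp w).mp hw
      have hh' := not_le.mp hh
      simp only at hh'
      rw [hdr' _ a] at hh'
      exact hh'
    have e2 : (2 * ((2 : ℕ) + 1 : ℝ) + 1) = 7 := by norm_num
    rw [e2]
    have e3 : 0 ≤ Real.log (2 * (W : ℝ) + 1) := Real.log_nonneg (by
      have : (0 : ℝ) ≤ W := Nat.cast_nonneg W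
      linarith)
    have := mul_le_mul_of_nonneg_right e1 e3
    linarith
  · intro w hw hg
    obtain ⟨a, b, e⟩ := (P2_pos hp w).mp hw
    have h1 := h _ _ a b e
    have hg' : m ≤ |(D w.1 : ℝ) - D w.2| := by
      have : Gd (L w.1, (Tc w.1, (U w.2, D w.2))) := hg
      rw [hGd] at this
      simp only at this
      rwa [hdr' _ a] at this
    show |((⌊β w.1 * m / K⌋ : ℤ) : ℝ) - (((U w.2 : ℝ) - ur (L w.1)) /
      ((D w.2 : ℝ) - dr (L w.1))) * m / K| ≤ ((2 : ℕ) : ℝ)
    rw [hur' _ a, hdr' _ a]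
    set d : ℝ := (D w.2 : ℝ) - D w.1 with hd
    set u : ℝ := (U w.2 : ℝ) - U w.1 with hu
    have hdm : m ≤ |d| := by
      rw [hd, abs_sub_comm]
      exact hg'
    have hd0 : 0 < |d| := lt_of_lt_of_le hm hdm
    have hd1 : d ≠ 0 := abs_pos.mp hd0
    have e1 : |β w.1 * m / K - u / d * m / K| ≤ 1 := by
      have e2 : β w.1 * m / K - u / d * m / K = -((u - β w.1 * d) * (m / (K * d))) := by
        field_simp
        ring
      rw [e2, abs_neg, abs_mul, abs_div, abs_mul, abs_of_pos hm, abs_of_pos hK]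
      have e3 : 0 < K * |d| := mul_pos hK hd0
      rw [mul_div_assoc', div_le_one e3]
      calc |u - β w.1 * d| * m ≤ K * m := mul_le_mul_of_nonneg_right h1 hm.le
        _ ≤ K * |d| := mul_le_mul_of_nonneg_left hdm hK.le
    have f1 := Int.floor_le (β w.1 * m / K)
    have f2 := Int.lt_floor_add_one (β w.1 * m / K)
    have f3 := abs_le.mp e1
    rw [abs_le]
    push_cast
    constructor <;> linarith [f3.1, f3.2]
  · intro w hw
    obtain ⟨a, _, _⟩ := (P2_pos hp w).mp hw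
    exact hW _ a

/-- **Separation**: if `⌊D / m⌋` is alive given `G` on all large parts, two samples are apart. -/
theorem sep (hp : IsLaw p) (G : Ω → 𝒢) (D : Ω → ℝ) {m δ : ℝ} (hm : 0 < m) (hδ : 0 < δ)
    (h : ∀ q : Ω → ℝ, IsLaw q → (∀ ω, q ω ≤ 2 / δ * p ω) →
      Real.log (2 / δ) < CH q (fun ω => ⌊D ω / m⌋) G) :
    law (P2 p G) (fun w => |D w.1 - D w.2| < m) True ≤ 3 * δ := by
  classical
  have h0 := hp.nonneg
  by_contra hcon
  push Not at hcon
  set c : Ω → ℤ := fun ω => ⌊D ω / m⌋ with hc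
  have h1 := near_cells hp G D hm
  have h2 : δ < law (P2 p G) (fun w => c w.1 = c w.2) True := by
    have : law (P2 p G) (fun w => |D w.1 - D w.2| < m) True ≤
      3 * law (P2 p G) (fun w => c w.1 = c w.2) True := h1
    linarith
  rw [P2_coll] at h2
  set t : Ω → ℝ := fun ω => law p (fun ω => (c ω, G ω)) (c ω, G ω) / law p G (G ω) with ht
  set A : Ω → Prop := fun ω => δ / 2 ≤ t ω with hA
  have hfst : ∀ (d : ℤ) (g : 𝒢), law p (fun ω => (c ω, G ω)) (d, g) ≤ law p G g := by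
    intro d g
    unfold law
    refine Finset.sum_le_sum fun ω _ => ?_
    by_cases hh : (c ω, G ω) = (d, g)
    · rw [if_pos hh, if_pos (Prod.ext_iff.mp hh).2]
    · rw [if_neg hh]
      split_ifs
      · exact h0 ω
      · exact le_rfl
  have ht1 : ∀ ω, 0 < p ω → t ω ≤ 1 := fun ω hω => by
    rw [ht]
    dsimp only
    rw [div_le_one (law_pos h0 G hω)]
    exact hfst _ _
  have h3 : δ < law p A True + δ / 2 := by
    refine lt_of_lt_of_le h2 ?_
    have key : ∑ ω, p ω * t ω ≤ law p A True + δ / 2 := by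
      have e : ∑ ω, p ω * (δ / 2) = δ / 2 := by
        rw [← Finset.sum_mul, hp.sum_one, one_mul]
      unfold law
      rw [← e, ← Finset.sum_add_distrib]
      refine Finset.sum_le_sum fun ω _ => ?_
      rcases (h0 ω).eq_or_lt with hω | hω
      · rw [← hω]
        simp
      · by_cases hh : A ω
        · rw [if_pos (eq_true hh)]
          nlinarith [ht1 ω hω]
        · rw [if_neg (fun h => hh (of_eq_true h)), zero_add]
          exact mul_le_mul_of_nonneg_left (not_le.mp hh).le hω.le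
    exact key
  have h4 : δ / 2 < law p A True := by linarith
  have h4' : 0 < law p A True := by linarith
  have hql : IsLaw (Pool.Agent.H49.Ent.cond p A True) := ⟨cond_nonneg h0 A True, sum_cond p A h4'.ne'⟩
  have hqd : ∀ ω, Pool.Agent.H49.Ent.cond p A True ω ≤ 2 / δ * p ω := by
    intro ω
    unfold Pool.Agent.H49.Ent.cond
    split_ifs
    · rw [div_le_iff₀ h4']
      have : p ω * (δ / 2) ≤ p ω * law p A True := mul_le_mul_of_nonneg_left h4.le (h0 ω)
      have e : 2 / δ * p ω * law p A True = (2 / δ) * (p ω * law p A True) := by ring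
      rw [e]
      calc p ω = (2 / δ) * (p ω * (δ / 2)) := by field_simp
        _ ≤ _ := mul_le_mul_of_nonneg_left this (by positivity)
    · exact mul_nonneg (by positivity) (h0 ω)
  have h5 := h _ hql hqd
  set F : 𝒢 → Finset ℤ := fun g => (univ.image c).filter
    (fun d => 0 < law p G g ∧ δ / 2 * law p G g ≤ law p (fun ω => (c ω, G ω)) (d, g)) with hF
  have hmem : ∀ ω, 0 < Pool.Agent.H49.Ent.cond p A True ω → c ω ∈ F (G ω) := by
    intro ω hω
    obtain ⟨a, b⟩ := (cond_pos_iff h0 A True ω).mp hω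
    have hl := law_pos h0 G a
    refine Finset.mem_filter.mpr ⟨Finset.mem_image_of_mem _ (Finset.mem_univ _), hl, ?_⟩
    have hb : δ / 2 ≤ t ω := of_eq_true b
    rw [ht] at hb
    exact (le_div_iff₀ hl).mp hb
  have hcard : ∀ ω, 0 < Pool.Agent.H49.Ent.cond p A True ω → Real.log ((F (G ω)).card) ≤ Real.log (2 / δ) := by
    intro ω hω
    have a := ((cond_pos_iff h0 A True ω).mp hω).1
    have hl := law_pos h0 G a
    have hpos : (0 : ℝ) < (F (G ω)).card := by
      exact_mod_cast Finset.card_pos.mpr ⟨_, hmem ω hω⟩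
    refine Real.log_le_log hpos ?_
    have s1 : ∑ d ∈ F (G ω), δ / 2 * law p G (G ω) ≤
        ∑ d ∈ F (G ω), law p (fun ω => (c ω, G ω)) (d, G ω) :=
      Finset.sum_le_sum fun d hd => (Finset.mem_filter.mp hd).2.2
    have s2 : ∑ d ∈ F (G ω), law p (fun ω => (c ω, G ω)) (d, G ω) ≤ law p G (G ω) := by
      unfold law
      rw [Finset.sum_comm]
      refine Finset.sum_le_sum fun ω' _ => ?_
      by_cases hg : G ω' = G ω
      · rw [if_pos hg]
        refine (Finset.sum_le_sum fun d hd => ?_).trans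
          ((Finset.sum_ite_eq' (F (G ω)) (c ω') (fun _ => p ω')).le.trans ?_)
        · by_cases hd' : d = c ω'
          · rw [if_pos hd']
            split_ifs
            · exact le_rfl
            · exact h0 ω'
          · rw [if_neg hd', if_neg (fun hh => hd' (Prod.ext_iff.mp hh).1.symm)]
        · split_ifs
          · exact le_rfl
          · exact h0 ω'
      · rw [if_neg hg]
        refine (Finset.sum_eq_zero fun d _ => ?_).le
        rw [if_neg (fun hh => hg (Prod.ext_iff.mp hh).2)]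
    rw [Finset.sum_const, nsmul_eq_mul] at s1
    have s3 : ((F (G ω)).card : ℝ) * (δ / 2 * law p G (G ω)) ≤ law p G (G ω) := s1.trans s2
    rw [le_div_iff₀ hδ]
    have s4 : ((F (G ω)).card : ℝ) * (δ / 2) ≤ 1 := by
      by_contra hcc
      push Not at hcc
      nlinarith
    linarith
  have h6 := CH_le_card hql.nonneg hql.sum_one c G F hmem
  have h7 : Ex (Pool.Agent.H49.Ent.cond p A True) (fun ω => Real.log ((F (G ω)).card)) ≤ Real.log (2 / δ) := by
    rw [← Ex_const hql.sum_one (Real.log (2 / δ))]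
    exact Ex_mono hql.nonneg fun ω hω => hcard ω hω
  linarith

/-- **The slope is closed.** -/
theorem closed_slope (hp : IsLaw p) {L : Ω → Λ} {T : Ω → 𝒯} {Tc : Ω → κ} {G : Ω → 𝒢}
    {D U : Ω → ℤ} {P : Ω → 𝒬} {Z : Ω → 𝒵} {β : Ω → ℝ} (hGT : Det p G Tc)
    (hGZ : Det p G Z) (hLZ : Det p L Z) (hLU : Det p L U) (hLD : Det p L D)
    (S : Λ → κ → ℤ → 𝒯 → Finset 𝒬) {K₀ : ℕ} (hK₀ : 1 ≤ K₀)
    (hS : ∀ l c d t, (S l c d t).card ≤ K₀)
    (hP : ∀ ω₁ ω₂ ω₃, 0 < p ω₁ → 0 < p ω₂ → 0 < p ω₃ → G ω₁ = G ω₂ → L ω₂ = L ω₃ →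
      Tc ω₂ = Tc ω₃ → P ω₃ ∈ S (L ω₁) (Tc ω₁) (D ω₂) (T ω₃))
    {K m δ : ℝ} (hK : 0 < K) (hm : 0 < m) (hδ : 0 < δ) (W : ℕ)
    (h : ∀ ω ω', 0 < p ω → 0 < p ω' → G ω = G ω' →
      |((U ω' : ℝ) - U ω) - β ω * ((D ω' : ℝ) - D ω)| ≤ K)
    (hW : ∀ ω, 0 < p ω → |⌊β ω * m / K⌋| ≤ (W : ℤ))
    (halive : ∀ q : Ω → ℝ, IsLaw q → (∀ ω, q ω ≤ 2 / δ * p ω) →
      Real.log (2 / δ) < CH q (fun ω => ⌊(D ω : ℝ) / m⌋) G) :
    CH p (fun ω => ⌊β ω * m / K⌋) (fun ω => (L ω, Tc ω)) ≤ CH p U P + Real.log K₀ +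
      (CH p T Tc - CH p T (fun ω => (L ω, Tc ω))) + (CH p D Z - CH p D G) +
      (Real.log 7 + 3 * δ * Real.log (2 * W + 1)) := by
  have h1 := betac hp (B := fun ω => ⌊β ω * m / K⌋) hGT hGZ hLZ hLU S hK₀ hS hP
  have h2 := sep hp G (fun ω => (D ω : ℝ)) hm hδ halive
  have h3 := slope_few hp Tc hLU hLD hK hm W h hW h2
  linarith

end Pool.OWN54
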