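import Pool.Agent.H68.OWN.Jf
import Pool.Agent.H54.OWN.Pcx

/-!
# The rows of the own height of one coordinate given the height of another coordinate

`exch`: exchange of the roles of a height and of exact positions. `nfv_of`: if the rows of `κ` are
not full given the exact point over `I` and the exact position of `v`, the point over `I` and the
position of `v` are full given the ball `a`, and the own height of `κ` to `p + q` digits and the own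
height of `v` to `s` digits are few bits given the ball, then the rows of the own height of `κ` over
the labels of the window `w` are not full given the labels, the own height of `v` to `s' ≥ s` digits
and the point over `I` to `U J` digits.
-/

set_option autoImplicit false

namespace Pool.OWN54

open Finset Real MvPolynomial
open Pool.Agent.H49.Ent Pool.Agent.H32.Dense Pool.STK Pool.KA Pool.KSAT Pool.K2S Pool.PB Pool.GEN
open Pool.S6C Pool.RCD Pool.LA91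
open Pool.OWN68
open Pool.GRD (LbP Pb_mono_pos)
open Pool.UNJ (ceI Tub)
open Pool.BFL (Pb)

/-- **Exchange.** -/
theorem exch {Ω α β γ η θ : Type} [Fintype Ω] {p : Ω → ℝ} (h0 : ∀ ω, 0 ≤ p ω) (H : Ω → α)
    (R : Ω → β) (X : Ω → γ) (Y : Ω → η) (Ya : Ω → θ) {A₁ M₁ M₂ e : ℝ}
    (h1 : CH p H (fun ω => (X ω, (R ω, Y ω))) ≤ A₁)
    (h2 : CH p X (fun ω => (R ω, Y ω)) ≤ M₁) (h3 : M₂ ≤ CH p X Ya)
    (h4 : ∀ ω ω', 0 < p ω → 0 < p ω' → Ya ω = Ya ω' → Y ω = Y ω')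
    (h5 : CH p (fun ω => (H ω, R ω)) Ya ≤ e) :
    CH p H (fun ω => (R ω, Y ω)) ≤ A₁ + (M₁ - M₂) + e := by
  have t1 := CH_exch h0 H X (fun ω => (R ω, Y ω))
  have t5 := CH_exch h0 X (fun ω => (H ω, R ω)) Ya
  have t6 : 0 ≤ CH p (fun ω => (H ω, R ω)) (fun ω => (X ω, Ya ω)) := CH_nonneg h0 _ _
  have t4 : CH p X (fun ω => ((H ω, R ω), Ya ω)) ≤ CH p X (fun ω => (H ω, (R ω, Y ω))) :=
    CH_mono_cond h0 fun ω ω' a b e => by
      simp only [Prod.mk.injEq] at e ⊢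
      exact ⟨e.1.1, e.1.2, h4 ω ω' a b e.2⟩
  linarith

variable {m J : ℕ}

/-- The number of the digits of a floor at a finer scale. -/
theorem fl_cnt {Ω T : Type} [Fintype Ω] {p : Ω → ℝ} (hp : IsLaw p) (X : Ω → ℝ) {s s' : ℝ}
    (hss : s ≤ s') (J : ℕ) (Z : Ω → T) (hZ : ∀ ω ω', 0 < p ω → 0 < p ω' → Z ω = Z ω' →
      ⌊(2 : ℝ) ^ (s * J) * X ω⌋ = ⌊(2 : ℝ) ^ (s * J) * X ω'⌋) :
    CH p (fun ω => ⌊(2 : ℝ) ^ (s' * J) * X ω⌋) Z ≤ (s' - s) * J * Real.log 2 + Real.log 7 := by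
  have hJ0 : (0 : ℝ) ≤ J := Nat.cast_nonneg J
  obtain ⟨B, hB⟩ : ∃ B : ℝ, B = 2 ^ ((s' - s) * J) := ⟨_, rfl⟩
  have hB1 : 1 ≤ B := by
    rw [hB, ← exp_p2]
    refine Real.one_le_exp ?_
    have := Real.log_pos one_lt_two
    exact mul_nonneg (mul_nonneg (by linarith) hJ0) this.le
  have h1 : CH p (fun ω => ⌊(2 : ℝ) ^ (s' * J) * X ω⌋) Z ≤
      Real.log (2 * ((⌈B⌉₊ + 1 : ℕ) : ℝ) + 1) := by
    refine CH_pair hp _ Z fun ω ω' hω hω' e => floor_sub_le ?_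
    have e1 := hZ ω ω' hω hω' e
    have h2 := fl_scale (s := 2 ^ (s' * J)) (t := 2 ^ (s * J)) (B := B)
      (Real.rpow_pos_of_pos (by norm_num) _).le (le_of_eq (by
        rw [hB, ← Real.rpow_add (by norm_num)]
        congr 1
        ring)) (Real.rpow_pos_of_pos (by norm_num) _) e1
    exact h2.trans (Nat.le_ceil B)
  refine h1.trans ?_
  have h3 : 2 * ((⌈B⌉₊ + 1 : ℕ) : ℝ) + 1 ≤ B * 7 := by
    have := Nat.ceil_lt_add_one (zero_le_one.trans hB1)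
    push_cast
    linarith
  refine (Real.log_le_log (by positivity) h3).trans (le_of_eq ?_)
  rw [Real.log_mul (by positivity) (by norm_num), hB, ← exp_p2, Real.log_exp]

/-- **The position of `v` is full** behind `s` digits given the exact point over `I` and every
closed function of the window `a`. -/
def FulV (S : PCl m) (I : Finset (Fin m)) (v : Fin m) (a s : ℝ) : Prop :=
  ∀ ρ : ℝ, 0 < ρ → Bas S (fun J F A => ∀ (V : Type) (z : PtT F → V) (z' : LnT F → V),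
    (∀ ω, A ω → z (ptr F J ω) = z' (slam F ⌊a * J⌋₊ ω)) →
    ((1 - s) - ρ) * Real.log 2 * J ≤ CH (Pool.Agent.H49.Ent.cond F.p A True)
      (fun ω => F.X J ω v)
      (fun ω => (ceI I (fun _ => J) (F.x ω), (z' (slam F ⌊a * J⌋₊ ω), F.W ω))))

/-- The position of `v` is full behind `s` digits, with the defect `η`. -/
def FulVe (S : PCl m) (I : Finset (Fin m)) (v : Fin m) (a s η : ℝ) : Prop :=
  Bas S (fun J F A => ∀ (V : Type) (z : PtT F → V) (z' : LnT F → V),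
    (∀ ω, A ω → z (ptr F J ω) = z' (slam F ⌊a * J⌋₊ ω)) →
    ((1 - s) * Real.log 2 - η) * J ≤ CH (Pool.Agent.H49.Ent.cond F.p A True)
      (fun ω => F.X J ω v)
      (fun ω => (ceI I (fun _ => J) (F.x ω), (z' (slam F ⌊a * J⌋₊ ω), F.W ω))))

theorem FulV.ve {S : PCl m} {I : Finset (Fin m)} {v : Fin m} {a s s₀ η : ℝ}
    (h : FulV S I v a s₀) (hη : (s₀ - s) * Real.log 2 < η) : FulVe S I v a s η := by
  have hl2 : 0 < Real.log 2 := Real.log_pos one_lt_two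
  obtain ⟨ρ, hρ⟩ : ∃ ρ : ℝ, ρ = (η - (s₀ - s) * Real.log 2) / Real.log 2 := ⟨_, rfl⟩
  have hρ0 : 0 < ρ := by
    rw [hρ]
    exact div_pos (by linarith) hl2
  refine Bas.mono 0 (h ρ hρ0) fun J _ F A h1 V z z' hz => (le_of_eq ?_).trans (h1 V z z' hz)
  rw [hρ]
  field_simp
  ring

/-- **The rows of the own height of `κ` are not full**, given labels of `κ` and `v`, the own height
of `v` to `s'` digits, the point over `I` to `U J` digits and the time. -/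
def NfV (S : PCl m) (I : Finset (Fin m)) (κ v : Fin m) (w p q r h δ pv rv s' U : ℝ) : Prop :=
  ∃ e₀ : ℝ, 0 < e₀ ∧ ∀ e : ℝ, 0 < e → e ≤ e₀ → ∀ ev : ℝ, 0 < ev → ev ≤ e₀ →
    ∀ (K Kv : ℕ) (x : ℝ), 0 ≤ x → x ≤ q →
    Bas S (fun J F A => ∀ (V : Type) (z : PtT F → V) (z' : LnT F → V)
      (G : V → MvPolynomial (Option (Fin m)) ℝ),
      LbOK F I κ K ⌊e * J⌋₊ J ⌊w * J⌋₊ ⌊(r + e) * J⌋₊ ⌊(p - e) * J⌋₊ A z z' G →
      ∀ (Vv : Type) (zv : PtT F → Vv) (zv' : LnT F → Vv)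
      (Gv : Vv → MvPolynomial (Option (Fin m)) ℝ),
      LbOK F I v Kv ⌊ev * J⌋₊ J ⌊w * J⌋₊ ⌊(rv + ev) * J⌋₊ ⌊(pv - ev) * J⌋₊ A zv zv' Gv →
      CH (Pool.Agent.H49.Ent.cond F.p A True)
        (fun ω => ⌊(2 : ℝ) ^ ((p + q) * J) * ojet F κ 0 (G (z' (slam F ⌊w * J⌋₊ ω))) ω⌋)
        (fun ω => (⌊(2 : ℝ) ^ ((p + x) * J) * ojet F κ 0 (G (z' (slam F ⌊w * J⌋₊ ω))) ω⌋,
          (z' (slam F ⌊w * J⌋₊ ω), ((zv' (slam F ⌊w * J⌋₊ ω),
            ⌊(2 : ℝ) ^ (s' * J) * ojet F v 0 (Gv (zv' (slam F ⌊w * J⌋₊ ω))) ω⌋),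
            (bI I U J F ω, F.W ω))))) ≤
        ((1 - h) * (q - x) * Real.log 2 + δ) * J)

theorem ojet_zero (F : Fam m J) (κ : Fin m) (G : MvPolynomial (Option (Fin m)) ℝ) (ω : F.Ω) :
    ojet F κ 0 G ω = F.x ω κ - eval (bt F ω) G := by
  show jet 0 (X (some κ) - G) (bt F ω) (bd F ω) = _
  rw [jet_zero, map_sub, eval_X]
  rfl

/-- The value of the own height, from the position. -/
theorem oj_near {F : Fam m J} {I : Finset (Fin m)} {κ : Fin m} {K : ℕ} {e w ρ t : ℝ} {P : ℕ}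
    {A : F.Ω → Prop} {V : Type} {z : PtT F → V} {z' : LnT F → V}
    {G : V → MvPolynomial (Option (Fin m)) ℝ}
    (hlb : LbOK F I κ K ⌊e * J⌋₊ J ⌊w * J⌋₊ ⌊ρ * J⌋₊ P A z z' G) (he : 0 ≤ e)
    (hρ : ⌊ρ * J⌋₊ ≤ J) (hm : Real.log (m + 1) ≤ (1 - t - e) * Real.log 2 * J)
    {ω ω' : F.Ω} (hω : A ω) (hω' : A ω') (hV : ceI I (fun _ => J) (F.x ω) =
      ceI I (fun _ => J) (F.x ω')) (hz : z' (slam F ⌊w * J⌋₊ ω) = z' (slam F ⌊w * J⌋₊ ω'))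
    (hT : F.T ω = F.T ω') {s : ℝ} (hs : s ≤ t) :
    |(2 : ℝ) ^ (s * J) * (ojet F κ 0 (G (z' (slam F ⌊w * J⌋₊ ω))) ω -
      ojet F κ 0 (G (z' (slam F ⌊w * J⌋₊ ω'))) ω') -
        2 ^ (s * J) * (F.x ω κ - F.x ω' κ)| ≤ 2 := by
  have hJ0 : (0 : ℝ) ≤ J := Nat.cast_nonneg J
  have herr : (2 : ℝ) ^ (s * J) * (2 * (2 ^ ⌊e * J⌋₊ * ((m + 1) * (1 / 2 ^ J)))) ≤ 2 := by
    have a1 : (2 : ℝ) ^ ⌊e * J⌋₊ ≤ 2 ^ (e * J) := p2_le (by positivity)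
    have a2 : (1 : ℝ) / 2 ^ J = 2 ^ (-(J : ℝ)) := by
      rw [Real.rpow_neg (by norm_num), Real.rpow_natCast, one_div]
    have a3 : (m : ℝ) + 1 ≤ 2 ^ ((1 - t - e) * J) := by
      rw [← exp_p2, ← Real.log_le_iff_le_exp (by positivity)]
      linarith
    have a4 : (0 : ℝ) < 2 ^ (s * J) := Real.rpow_pos_of_pos (by norm_num) _
    have a5 : (0 : ℝ) < 2 ^ (e * J) := Real.rpow_pos_of_pos (by norm_num) _
    have a6 : (0 : ℝ) < 2 ^ (-(J : ℝ)) := Real.rpow_pos_of_pos (by norm_num) _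
    rw [a2]
    calc (2 : ℝ) ^ (s * J) * (2 * (2 ^ ⌊e * J⌋₊ * ((m + 1) * 2 ^ (-(J : ℝ)))))
        ≤ 2 ^ (s * J) * (2 * (2 ^ (e * J) * (2 ^ ((1 - t - e) * J) * 2 ^ (-(J : ℝ))))) := by
          refine mul_le_mul_of_nonneg_left (mul_le_mul_of_nonneg_left ?_ (by norm_num)) a4.le
          exact mul_le_mul a1 (mul_le_mul_of_nonneg_right a3 a6.le) (by positivity) a5.le
      _ = 2 * (2 ^ (s * J) * 2 ^ (e * J) * 2 ^ ((1 - t - e) * J) * 2 ^ (-(J : ℝ))) := by ring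
      _ = 2 * 2 ^ (s * J + e * J + (1 - t - e) * J + -(J : ℝ)) := by
          rw [Real.rpow_add (by norm_num), Real.rpow_add (by norm_num),
            Real.rpow_add (by norm_num)]
      _ ≤ 2 * 1 := by
          refine mul_le_mul_of_nonneg_left ?_ (by norm_num)
          refine Real.rpow_le_one_of_one_le_of_nonpos (by norm_num) ?_
          have : s * J + e * J + (1 - t - e) * J + -(J : ℝ) = (s - t) * J := by ring
          rw [this]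
          exact mul_nonpos_of_nonpos_of_nonneg (by linarith) hJ0
      _ = 2 := by norm_num
  have h1 := val_near hlb hρ hω hω' hV hz hT
  rw [ojet_zero, ojet_zero]
  have e4 : (2 : ℝ) ^ (s * J) * (F.x ω κ - eval (bt F ω) (G (z' (slam F ⌊w * J⌋₊ ω))) -
        (F.x ω' κ - eval (bt F ω') (G (z' (slam F ⌊w * J⌋₊ ω'))))) -
        2 ^ (s * J) * (F.x ω κ - F.x ω' κ) =
      -(2 ^ (s * J) * (eval (bt F ω) (G (z' (slam F ⌊w * J⌋₊ ω))) -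
        eval (bt F ω') (G (z' (slam F ⌊w * J⌋₊ ω'))))) := by
    ring
  rw [e4, abs_neg, abs_mul, abs_of_pos (Real.rpow_pos_of_pos (by norm_num) _)]
  exact (mul_le_mul_of_nonneg_left h1 (Real.rpow_pos_of_pos (by norm_num) _).le).trans herr

theorem fl_abs' {t a b : ℝ} (ht : 0 < t) (h : ⌊t * a⌋ = ⌊t * b⌋) : |t * (a - b)| ≤ 1 := by
  have := fl_scale ht.le (by rw [one_mul]) ht h
  rwa [← mul_sub] at this

theorem p2_fl {s : ℝ} (hs : 0 ≤ s) (J : ℕ) : (2 : ℝ) ^ (s * J) ≤ 2 * 2 ^ ⌊s * J⌋₊ ∧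
    (2 : ℝ) ^ ⌊s * J⌋₊ ≤ 2 ^ (s * J) := by
  have hJ0 : (0 : ℝ) ≤ J := Nat.cast_nonneg J
  refine ⟨?_, p2_le (by positivity)⟩
  have a1 := ip2_le (s * J)
  rw [Real.rpow_neg (by norm_num), div_le_iff₀ (by positivity)] at a1
  have a2 : (0 : ℝ) < 2 ^ (s * J) := Real.rpow_pos_of_pos (by norm_num) _
  have a3 : 2 * ((2 : ℝ) ^ (s * J))⁻¹ * 2 ^ ⌊s * J⌋₊ * 2 ^ (s * J) = 2 * 2 ^ ⌊s * J⌋₊ := by
    field_simp
  nlinarith

/-- The rows of the own height from the rows of the position. -/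
theorem row_raw {F : Fam m J} {q' : F.Ω → ℝ} (hq : IsLaw q') {I : Finset (Fin m)} {κ : Fin m}
    {K : ℕ} {e w ρ P p x q : ℝ} {A : F.Ω → Prop} (hA : ∀ ω, 0 < q' ω → A ω) {V : Type}
    {z : PtT F → V} {z' : LnT F → V} {G : V → MvPolynomial (Option (Fin m)) ℝ}
    (hlb : LbOK F I κ K ⌊e * J⌋₊ J ⌊w * J⌋₊ ⌊ρ * J⌋₊ ⌊P * J⌋₊ A z z' G) (he : 0 ≤ e)
    (hρ : ⌊ρ * J⌋₊ ≤ J) (hm : Real.log (m + 1) ≤ (1 - (p + q) - e) * Real.log 2 * J)
    (hp : 0 ≤ p) (hx0 : 0 ≤ x) (hxq : x ≤ q) {T T' : Type} (Cd : F.Ω → T) (Cd' : F.Ω → T')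
    (hC : ∀ ω ω', 0 < q' ω → 0 < q' ω' → Cd ω = Cd ω' →
      ⌊(2 : ℝ) ^ ((p + x) * J) * ojet F κ 0 (G (z' (slam F ⌊w * J⌋₊ ω))) ω⌋ =
        ⌊(2 : ℝ) ^ ((p + x) * J) * ojet F κ 0 (G (z' (slam F ⌊w * J⌋₊ ω'))) ω'⌋ ∧
      ceI I (fun _ => J) (F.x ω) = ceI I (fun _ => J) (F.x ω') ∧
      z' (slam F ⌊w * J⌋₊ ω) = z' (slam F ⌊w * J⌋₊ ω') ∧ F.T ω = F.T ω' ∧ Cd' ω = Cd' ω') :
    CH q' (fun ω => ⌊(2 : ℝ) ^ ((p + q) * J) * ojet F κ 0 (G (z' (slam F ⌊w * J⌋₊ ω))) ω⌋) Cd ≤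
      CH q' (fun ω => F.X ⌊(p + q) * J⌋₊ ω κ)
        (fun ω => (F.X ⌊(p + x) * J⌋₊ ω κ, Cd' ω)) + (Real.log 9 + Real.log 11) := by
  have h0 := hq.nonneg
  have hXd : ∀ (n : ℕ) {ω ω' : F.Ω}, F.X n ω κ = F.X n ω' κ →
      |(2 : ℝ) ^ n * (F.x ω κ - F.x ω' κ)| ≤ 1 := fun n {ω ω'} e =>
    fl_abs' (by positivity) e
  have s1 : CH q' (fun ω => ⌊(2 : ℝ) ^ ((p + q) * J) *
      ojet F κ 0 (G (z' (slam F ⌊w * J⌋₊ ω))) ω⌋)
      (fun ω => (F.X ⌊(p + q) * J⌋₊ ω κ, Cd ω)) ≤ Real.log 11 := by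
    have e5 : (11 : ℝ) = 2 * ((5 : ℕ) : ℝ) + 1 := by norm_num
    rw [e5]
    refine CH_pair hq _ _ fun ω ω' hω hω' e => ?_
    simp only [Prod.mk.injEq] at e
    obtain ⟨e1, e6⟩ := e
    obtain ⟨-, e2, e3, e4, -⟩ := hC ω ω' hω hω' e6
    have g1 := oj_near hlb he hρ hm (hA ω hω) (hA ω' hω') e2 e3 e4 le_rfl
    have g2 := hXd _ e1
    have g3 := (p2_fl (s := p + q) (by linarith) J).1
    refine floor_sub_le (D := 4) ?_
    rw [← mul_sub]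
    have g4 : |(2 : ℝ) ^ ((p + q) * J) * (F.x ω κ - F.x ω' κ)| ≤ 2 := by
      rw [abs_mul, abs_of_pos (Real.rpow_pos_of_pos (by norm_num) _)]
      rw [abs_mul, abs_of_pos (by positivity)] at g2
      calc (2 : ℝ) ^ ((p + q) * J) * |F.x ω κ - F.x ω' κ|
          ≤ 2 * 2 ^ ⌊(p + q) * J⌋₊ * |F.x ω κ - F.x ω' κ| :=
            mul_le_mul_of_nonneg_right g3 (abs_nonneg _)
        _ = 2 * (2 ^ ⌊(p + q) * J⌋₊ * |F.x ω κ - F.x ω' κ|) := by ring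
        _ ≤ 2 := by linarith
    push_cast
    rw [abs_le] at g1 g4 ⊢
    constructor <;> linarith [g1.1, g1.2, g4.1, g4.2]
  have s2 : CH q' (fun ω => F.X ⌊(p + x) * J⌋₊ ω κ) Cd ≤ Real.log 9 := by
    have e5 : (9 : ℝ) = 2 * ((4 : ℕ) : ℝ) + 1 := by norm_num
    rw [e5]
    refine CH_pair hq _ _ fun ω ω' hω hω' e => ?_
    obtain ⟨e1, e2, e3, e4, -⟩ := hC ω ω' hω hω' e
    have g1 := oj_near hlb he hρ hm (hA ω hω) (hA ω' hω') e2 e3 e4 (s := p + x) (by linarith)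
    have g2 := fl_abs' (Real.rpow_pos_of_pos (by norm_num) _) e1
    have g3 := (p2_fl (s := p + x) (by linarith) J).2
    refine floor_sub_le (a := 2 ^ ⌊(p + x) * J⌋₊ * F.x ω κ)
      (b := 2 ^ ⌊(p + x) * J⌋₊ * F.x ω' κ) (D := 3) ?_
    rw [← mul_sub]
    have g4 : |(2 : ℝ) ^ ((p + x) * J) * (F.x ω κ - F.x ω' κ)| ≤ 3 := by
      rw [abs_le] at g1 g2 ⊢
      constructor <;> linarith [g1.1, g1.2, g2.1, g2.2]
    rw [abs_mul, abs_of_pos (by positivity)]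
    rw [abs_mul, abs_of_pos (Real.rpow_pos_of_pos (by norm_num) _)] at g4
    push_cast
    exact (mul_le_mul_of_nonneg_right g3 (abs_nonneg _)).trans g4
  have s3 := CH_le_add h0 (fun ω => ⌊(2 : ℝ) ^ ((p + q) * J) *
      ojet F κ 0 (G (z' (slam F ⌊w * J⌋₊ ω))) ω⌋) (fun ω => F.X ⌊(p + q) * J⌋₊ ω κ) Cd
  have s4 := CH_le_add h0 (fun ω => F.X ⌊(p + q) * J⌋₊ ω κ) (fun ω => F.X ⌊(p + x) * J⌋₊ ω κ) Cd
  have s5 : CH q' (fun ω => F.X ⌊(p + q) * J⌋₊ ω κ)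
      (fun ω => (F.X ⌊(p + x) * J⌋₊ ω κ, Cd ω)) ≤
      CH q' (fun ω => F.X ⌊(p + q) * J⌋₊ ω κ) (fun ω => (F.X ⌊(p + x) * J⌋₊ ω κ, Cd' ω)) :=
    CH_mono_cond h0 fun ω ω' hω hω' e => by
      simp only [Prod.mk.injEq] at e ⊢
      exact ⟨e.1, (hC ω ω' hω hω' e.2).2.2.2.2⟩
  linarith only [s1, s2, s3, s4, s5]


/-- Coarser digits. -/
theorem fl_crs' {r r' : ℕ} (hr : r ≤ r') {x y : ℝ}
    (h : ⌊(2 : ℝ) ^ r' * x⌋ = ⌊(2 : ℝ) ^ r' * y⌋) : ⌊(2 : ℝ) ^ r * x⌋ = ⌊(2 : ℝ) ^ r * y⌋ := by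
  obtain ⟨l, hl⟩ : ∃ l, r' = r + l := ⟨r' - r, by omega⟩
  have e1 : ∀ x : ℝ, ⌊(2 : ℝ) ^ r * x⌋ = ⌊((2 : ℝ) ^ r' * x) / ((2 ^ l : ℕ) : ℝ)⌋ := by
    intro x
    congr 1
    rw [hl, pow_add]
    push_cast
    field_simp
  rw [e1, e1, Int.floor_div_natCast, Int.floor_div_natCast, h]

/-- The position of `v` given its own height to `s` digits. -/
theorem pos_oj {F : Fam m J} {q' : F.Ω → ℝ} (hq : IsLaw q') {I : Finset (Fin m)} {v : Fin m}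
    {K : ℕ} {e w ρ s : ℝ} {P : ℕ} {A : F.Ω → Prop} (hA : ∀ ω, 0 < q' ω → A ω) {V : Type}
    {z : PtT F → V} {z' : LnT F → V} {G : V → MvPolynomial (Option (Fin m)) ℝ}
    (hlb : LbOK F I v K ⌊e * J⌋₊ J ⌊w * J⌋₊ ⌊ρ * J⌋₊ P A z z' G) (he : 0 ≤ e)
    (hρ : ⌊ρ * J⌋₊ ≤ J) (hm : Real.log (m + 1) ≤ (1 - s - e) * Real.log 2 * J)
    (hs1 : s ≤ 1) {T : Type} (Cd : F.Ω → T)
    (hC : ∀ ω ω', 0 < q' ω → 0 < q' ω' → Cd ω = Cd ω' →
      ⌊(2 : ℝ) ^ (s * J) * ojet F v 0 (G (z' (slam F ⌊w * J⌋₊ ω))) ω⌋ =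
        ⌊(2 : ℝ) ^ (s * J) * ojet F v 0 (G (z' (slam F ⌊w * J⌋₊ ω'))) ω'⌋ ∧
      ceI I (fun _ => J) (F.x ω) = ceI I (fun _ => J) (F.x ω') ∧
      z' (slam F ⌊w * J⌋₊ ω) = z' (slam F ⌊w * J⌋₊ ω') ∧ F.T ω = F.T ω') :
    CH q' (fun ω => F.X J ω v) Cd ≤ (1 - s) * J * Real.log 2 + Real.log 11 := by
  have hJ0 : (0 : ℝ) ≤ J := Nat.cast_nonneg J
  obtain ⟨B, hB⟩ : ∃ B : ℝ, B = 2 ^ ((1 - s) * J) := ⟨_, rfl⟩
  have hB1 : 1 ≤ B := by
    rw [hB, ← exp_p2]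
    refine Real.one_le_exp ?_
    have := Real.log_pos one_lt_two
    exact mul_nonneg (mul_nonneg (by linarith) hJ0) this.le
  have h1 : CH q' (fun ω => F.X J ω v) Cd ≤ Real.log (2 * ((⌈3 * B⌉₊ + 1 : ℕ) : ℝ) + 1) := by
    refine CH_pair hq _ Cd fun ω ω' hω hω' e => ?_
    obtain ⟨e1, e2, e3, e4⟩ := hC ω ω' hω hω' e
    have g1 := oj_near hlb he hρ hm (hA ω hω) (hA ω' hω') e2 e3 e4 le_rfl
    have g2 := fl_abs' (Real.rpow_pos_of_pos (by norm_num) _) e1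
    refine floor_sub_le (a := 2 ^ J * F.x ω v) (b := 2 ^ J * F.x ω' v) ?_
    have g4 : |(2 : ℝ) ^ (s * J) * (F.x ω v - F.x ω' v)| ≤ 3 := by
      rw [abs_le] at g1 g2 ⊢
      constructor <;> linarith [g1.1, g1.2, g2.1, g2.2]
    have e5 : (2 : ℝ) ^ J * F.x ω v - 2 ^ J * F.x ω' v =
        B * (2 ^ (s * J) * (F.x ω v - F.x ω' v)) := by
      have e6 : (2 : ℝ) ^ J = B * 2 ^ (s * J) := by
        rw [hB, ← Real.rpow_natCast, ← Real.rpow_add (by norm_num)]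
        congr 1
        ring
      rw [e6]
      ring
    rw [e5, abs_mul, abs_of_pos (zero_lt_one.trans_le hB1)]
    have g5 := mul_le_mul_of_nonneg_left g4 (zero_le_one.trans hB1)
    have g6 := Nat.le_ceil (3 * B)
    linarith
  refine h1.trans ?_
  have h3 : 2 * ((⌈3 * B⌉₊ + 1 : ℕ) : ℝ) + 1 ≤ B * 11 := by
    have := Nat.ceil_lt_add_one (a := 3 * B) (by linarith)
    push_cast
    linarith
  refine (Real.log_le_log (by positivity) h3).trans (le_of_eq ?_)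
  rw [Real.log_mul (by positivity) (by norm_num), hB, ← exp_p2, Real.log_exp]

/-- The own height of a label as a member of the family of jets. -/
theorem qjet_mem {m K : ℕ} {N w r e : ℝ} {M J₁ : ℕ}
    (hcnt : ∀ J ≥ J₁, ∀ (F : Fam m J) (I : Finset (Fin m)) (k : Fin m) (P : ℕ) (A : F.Ω → Prop)
      (V : Type) (z : PtT F → V) (z' : LnT F → V) (G : V → MvPolynomial (Option (Fin m)) ℝ),
      LbOK F I k K ⌊e * J⌋₊ J ⌊w * J⌋₊ ⌊(r + e) * J⌋₊ P A z z' G →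
      (cnt F.p (fun ω => ⌊(2 : ℝ) ^ (N * J) *
        ojet F k 0 (G (z' (slam F ⌊w * J⌋₊ ω))) ω⌋) A : ℝ) ≤ Real.exp (M * J)) {J : ℕ}
    (hJ : J₁ ≤ J) {F : Fam m J} {I : Finset (Fin m)} {k : Fin m} {p e' : ℝ} (hee : e ≤ e')
    {A : F.Ω → Prop} {V : Type} {z : PtT F → V} {z' : LnT F → V}
    {G : V → MvPolynomial (Option (Fin m)) ℝ}
    (hlb : LbOK F I k K ⌊e * J⌋₊ J ⌊w * J⌋₊ ⌊(r + e) * J⌋₊ ⌊(p - e) * J⌋₊ A z z' G) :
    (qJet m I k 0 w p N).P (max K M) e' J F A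
      (fun ω => ⌊(2 : ℝ) ^ (N * J) * ojet F k 0 (G (z' (slam F ⌊w * J⌋₊ ω))) ω⌋) := by
  refine ⟨?_, V, z, z', G, ?_, fun ω _ => rfl⟩
  · refine (hcnt J hJ F I k _ A V z z' G hlb).trans
      (Real.exp_le_exp.2 (mul_le_mul_of_nonneg_right ?_ (Nat.cast_nonneg J)))
    exact_mod_cast le_max_right _ _
  · refine (LbP.of hlb).mono (Finset.Subset.refl _) (le_max_left _ _) ?_
    exact Nat.floor_le_floor (mul_le_mul_of_nonneg_right (by linarith) (Nat.cast_nonneg J))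


/-- **The rows of the own height of `κ` are not full** given the own height of `v`. -/
theorem nfv_of {S : PCl m} {C₀ : ℝ} (htm : TmC S C₀) {I : Finset (Fin m)} {κ v : Fin m}
    {w a p q r U h δ₁ δ₂ δ₃ δ₄ δ e₁ pv rv s s' : ℝ} (hwa : w ≤ a) (ha : a ≤ 1)
    (hp : 0 ≤ p) (hq : 0 ≤ q) (hpq : p + q < 1) (hr0 : 0 ≤ r) (hr : r < 1) (hrv0 : 0 ≤ rv)
    (hrv : rv < 1) (hU : U ≤ 1) (hss : s ≤ s') (hs' : s' < 1)
    (hraw : RawN S (insert v I) κ p q h δ₁) (hful : Ful S I a U)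
    (hfv : FulVe S I v a s δ₄) (he₁ : 0 < e₁)
    (hh0 : F0 S (fun J F => ptr F J) (vg a) (fun J F ω => (bI I U J F ω, F.W ω))
      (qJet m I κ 0 w p (p + q)) e₁ δ₂)
    (hv0 : F0 S (fun J F => ptr F J) (vg a) (fun J F ω => (bI I U J F ω, F.W ω))
      (qJet m I v 0 w pv s) e₁ δ₃) (hδ : δ₁ + δ₂ + δ₃ + δ₄ < δ) :
    NfV S I κ v w p q r h δ pv rv s' U := by
  classical
  obtain ⟨e₀, he₀⟩ : ∃ e₀ : ℝ, e₀ = min (min e₁ (min ((1 - p - q) / 2) (1 - r)))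
    (min ((1 - s') / 2) (1 - rv)) := ⟨_, rfl⟩
  refine ⟨e₀, ?_, ?_⟩
  · rw [he₀]
    exact lt_min (lt_min he₁ (lt_min (by linarith) (by linarith)))
      (lt_min (by linarith) (by linarith))
  intro e he hle ev hev hlev K Kv x hx0 hxq
  have h0e : e₀ ≤ e₁ := by
    rw [he₀]
    exact (min_le_left _ _).trans (min_le_left _ _)
  have h1e : e ≤ e₁ := hle.trans h0e
  have h1v : ev ≤ e₁ := hlev.trans h0e
  have h2e : e ≤ (1 - p - q) / 2 := hle.trans (by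
    rw [he₀]
    exact (min_le_left _ _).trans ((min_le_right _ _).trans (min_le_left _ _)))
  have h3e : e ≤ 1 - r := hle.trans (by
    rw [he₀]
    exact (min_le_left _ _).trans ((min_le_right _ _).trans (min_le_right _ _)))
  have h2v : ev ≤ (1 - s') / 2 := hlev.trans (by
    rw [he₀]
    exact (min_le_right _ _).trans (min_le_left _ _))
  have h3v : ev ≤ 1 - rv := hlev.trans (by
    rw [he₀]
    exact (min_le_right _ _).trans (min_le_right _ _))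
  obtain ⟨ρ, hρ⟩ : ∃ ρ : ℝ, ρ = (δ - (δ₁ + δ₂ + δ₃ + δ₄)) / 3 := ⟨_, rfl⟩
  have hρ0 : 0 < ρ := by rw [hρ]; linarith
  obtain ⟨M, J₁, hcnt⟩ := cnt_jet m K 0 (N := p + q) (w := w) hr0 he
  obtain ⟨Mv, J₂, hcntv⟩ := cnt_jet m Kv 0 (N := s) (w := w) hrv0 hev
  have hlogm : 0 ≤ Real.log (m + 1) := Real.log_nonneg (by
    have : (0 : ℝ) ≤ m := Nat.cast_nonneg m
    linarith)
  have l5 : 0 ≤ Real.log 5 := Real.log_nonneg (by norm_num)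
  have l7 : 0 ≤ Real.log 7 := Real.log_nonneg (by norm_num)
  have l9 : 0 ≤ Real.log 9 := Real.log_nonneg (by norm_num)
  have l11 : 0 ≤ Real.log 11 := Real.log_nonneg (by norm_num)
  have hl2 : 0 < Real.log 2 := Real.log_pos one_lt_two
  have hl21 : Real.log 2 ≤ 1 := by
    have := Real.log_two_lt_d9
    linarith
  have hgap : 0 < (1 - (p + q) - e) * Real.log 2 := mul_pos (by linarith) hl2
  have hgapv : 0 < (1 - s' - ev) * Real.log 2 := mul_pos (by linarith) hl2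
  obtain ⟨J₃, hJ₃⟩ := exists_nat_ge (Real.log (m + 1) / ((1 - (p + q) - e) * Real.log 2) +
    Real.log (m + 1) / ((1 - s' - ev) * Real.log 2) +
    (Real.log 5 + Real.log 7 + Real.log 9 + 2 * Real.log 11) / ρ)
  refine Bas.mono (max (max J₁ J₂) J₃) (((hraw x hx0 hxq).and ((hful ρ hρ0).and hfv)).and
    (((hh0.mono h1e le_rfl) (max K M)).and (((hv0.mono h1v le_rfl) (max Kv Mv)).and
      (Pool.GRW.tmc_bas htm one_pos)))) ?_
  rintro J hJ F A ⟨⟨hraw, hF, hFv⟩, hH, hV, hA, -⟩ V z z' G hlb Vv zv zv' Gv hlv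
  have hJ1 : J₁ ≤ J := (le_max_left _ _).trans ((le_max_left _ _).trans hJ)
  have hJ2 : J₂ ≤ J := (le_max_right _ _).trans ((le_max_left _ _).trans hJ)
  have hJ3 : (J₃ : ℝ) ≤ J := by exact_mod_cast (le_max_right _ _).trans hJ
  have hJ0 : (0 : ℝ) ≤ J := Nat.cast_nonneg J
  have t1 : 0 ≤ Real.log (m + 1) / ((1 - (p + q) - e) * Real.log 2) := by positivity
  have t1v : 0 ≤ Real.log (m + 1) / ((1 - s' - ev) * Real.log 2) := by positivity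
  have t2 : 0 ≤ (Real.log 5 + Real.log 7 + Real.log 9 + 2 * Real.log 11) / ρ := by positivity
  have f1 : Real.log (m + 1) ≤ (1 - (p + q) - e) * Real.log 2 * J := by
    have : Real.log (m + 1) / ((1 - (p + q) - e) * Real.log 2) ≤ J := by linarith
    rw [div_le_iff₀ hgap] at this
    linarith
  have f1v : Real.log (m + 1) ≤ (1 - s' - ev) * Real.log 2 * J := by
    have : Real.log (m + 1) / ((1 - s' - ev) * Real.log 2) ≤ J := by linarith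
    rw [div_le_iff₀ hgapv] at this
    linarith
  have f2 : Real.log 5 + Real.log 7 + Real.log 9 + 2 * Real.log 11 ≤ ρ * J := by
    have : (Real.log 5 + Real.log 7 + Real.log 9 + 2 * Real.log 11) / ρ ≤ J := by linarith
    rw [div_le_iff₀ hρ0] at this
    linarith
  obtain ⟨q', hq'⟩ : ∃ q' : F.Ω → ℝ, q' = Pool.Agent.H49.Ent.cond F.p A True := ⟨_, rfl⟩
  have hq'l : IsLaw q' := by
    rw [hq']
    exact isLaw_cond F.isLaw hA
  have h0 := hq'l.nonneg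
  have hq'A : ∀ ω, 0 < q' ω → A ω := fun ω hω => by
    rw [hq'] at hω
    exact of_cond_pos hω
  rw [← hq'] at hraw ⊢
  have hrJ : ⌊(r + e) * J⌋₊ ≤ J := by
    refine Nat.floor_le_of_le ?_
    have : (r + e) * J ≤ 1 * J := mul_le_mul_of_nonneg_right (by linarith) hJ0
    linarith
  have hrvJ : ⌊(rv + ev) * J⌋₊ ≤ J := by
    refine Nat.floor_le_of_le ?_
    have : (rv + ev) * J ≤ 1 * J := mul_le_mul_of_nonneg_right (by linarith) hJ0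
    linarith
  -- the letters
  obtain ⟨Vx, hVx⟩ : ∃ Vx : F.Ω → Fin m → ℤ, Vx = fun ω => ceI I (fun _ => J) (F.x ω) :=
    ⟨_, rfl⟩
  obtain ⟨Xv, hXv⟩ : ∃ Xv : F.Ω → ℤ, Xv = fun ω => F.X J ω v := ⟨_, rfl⟩
  obtain ⟨Hn, hHn⟩ : ∃ Hn : F.Ω → ℤ, Hn = fun ω => ⌊(2 : ℝ) ^ ((p + q) * J) *
    ojet F κ 0 (G (z' (slam F ⌊w * J⌋₊ ω))) ω⌋ := ⟨_, rfl⟩
  obtain ⟨Rx, hRx⟩ : ∃ Rx : F.Ω → ℤ, Rx = fun ω => ⌊(2 : ℝ) ^ ((p + x) * J) *
    ojet F κ 0 (G (z' (slam F ⌊w * J⌋₊ ω))) ω⌋ := ⟨_, rfl⟩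
  obtain ⟨Z, hZ⟩ : ∃ Z : F.Ω → V, Z = fun ω => z' (slam F ⌊w * J⌋₊ ω) := ⟨_, rfl⟩
  obtain ⟨Zv, hZv⟩ : ∃ Zv : F.Ω → Vv, Zv = fun ω => zv' (slam F ⌊w * J⌋₊ ω) := ⟨_, rfl⟩
  obtain ⟨Hc, hHc⟩ : ∃ Hc : F.Ω → ℤ, Hc = fun ω => ⌊(2 : ℝ) ^ (s' * J) *
    ojet F v 0 (Gv (zv' (slam F ⌊w * J⌋₊ ω))) ω⌋ := ⟨_, rfl⟩
  obtain ⟨Hs, hHs⟩ : ∃ Hs : F.Ω → ℤ, Hs = fun ω => ⌊(2 : ℝ) ^ (s * J) *
    ojet F v 0 (Gv (zv' (slam F ⌊w * J⌋₊ ω))) ω⌋ := ⟨_, rfl⟩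
  -- the closed functions of the ball
  obtain ⟨Va, za, hza, hH⟩ := hH Hn (by rw [hHn]; exact qjet_mem hcnt hJ1 le_rfl hlb)
  obtain ⟨Vb, zb, hzb, hV⟩ := hV Hs (by rw [hHs]; exact qjet_mem hcntv hJ2 le_rfl hlv)
  rw [← hq'] at hH hV
  obtain ⟨⟨φa, hφa⟩, ψa, hψa⟩ := hza
  obtain ⟨⟨φb, hφb⟩, ψb, hψb⟩ := hzb
  obtain ⟨φg, hφg⟩ := vg_mono hwa ha J F
  obtain ⟨zp, hzp⟩ : ∃ zp : PtT F → (Va × Vb) × (V × Vv), zp = fun x =>
    ((φa x, φb x), (z x, zv x)) := ⟨_, rfl⟩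
  obtain ⟨zl, hzl⟩ : ∃ zl : LnT F → (Va × Vb) × (V × Vv), zl = fun s =>
    ((ψa s, ψb s), (z' (φg s), zv' (φg s))) := ⟨_, rfl⟩
  have hvg : ∀ ω, φg (slam F ⌊a * J⌋₊ ω) = slam F ⌊w * J⌋₊ ω := fun ω => (hφg ω).symm
  have hzc : ∀ ω, A ω → zp (ptr F J ω) = zl (slam F ⌊a * J⌋₊ ω) := fun ω hω => by
    rw [hzp, hzl]
    dsimp only
    rw [hvg, hlb.cls ω hω, hlv.cls ω hω]
    refine Prod.ext (Prod.ext ?_ ?_) rfl
    · have e1 := hψa ω hω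
      have e2 := hφa ω hω
      exact e2.symm.trans e1
    · have e1 := hψb ω hω
      have e2 := hφb ω hω
      exact e2.symm.trans e1
  have hful := hF _ zp zl hzc
  have hfulv := hFv _ zp zl hzc
  rw [← hq'] at hful hfulv
  obtain ⟨Q, hQ⟩ : ∃ Q : F.Ω → (Va × Vb) × (V × Vv), Q = fun ω => zl (slam F ⌊a * J⌋₊ ω) :=
    ⟨_, rfl⟩
  have hQd : ∀ ω ω', 0 < q' ω → 0 < q' ω' → Q ω = Q ω' →
      za ω = za ω' ∧ zb ω = zb ω' ∧ Z ω = Z ω' ∧ Zv ω = Zv ω' := by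
    intro ω ω' hω hω' e
    rw [hQ, hzl] at e
    simp only [Prod.mk.injEq] at e
    obtain ⟨⟨e1, e2⟩, e3, e4⟩ := e
    rw [hvg, hvg] at e3 e4
    refine ⟨?_, ?_, ?_, ?_⟩
    · exact (hψa ω (hq'A ω hω)).trans (e1.trans (hψa ω' (hq'A ω' hω')).symm)
    · exact (hψb ω (hq'A ω hω)).trans (e2.trans (hψb ω' (hq'A ω' hω')).symm)
    · rw [hZ]
      exact e3
    · rw [hZv]
      exact e4
  obtain ⟨Y₀, hY₀⟩ : ∃ Y₀ : F.Ω → (Fin m → ℤ) × (((Va × Vb) × (V × Vv)) × (ℕ × F.ζ)),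
    Y₀ = fun ω => (bI I U J F ω, (Q ω, F.W ω)) := ⟨_, rfl⟩
  have hY₀d : ∀ ω ω', 0 < q' ω → 0 < q' ω' → Y₀ ω = Y₀ ω' → bI I U J F ω = bI I U J F ω' ∧
      F.W ω = F.W ω' ∧ za ω = za ω' ∧ zb ω = zb ω' ∧ Z ω = Z ω' ∧ Zv ω = Zv ω' := by
    intro ω ω' hω hω' e
    rw [hY₀] at e
    simp only [Prod.mk.injEq] at e
    obtain ⟨a1, a2, a3, a4⟩ := hQd ω ω' hω hω' e.2.1
    exact ⟨e.1, e.2.2, a1, a2, a3, a4⟩
  have hUJ : ⌊U * J⌋₊ ≤ J := by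
    refine Nat.floor_le_of_le ?_
    have : U * J ≤ 1 * J := mul_le_mul_of_nonneg_right hU hJ0
    linarith
  -- the few bits
  have c1 : CH q' Hn Y₀ ≤ δ₂ * J := by
    refine le_trans (CH_mono_cond h0 fun ω ω' hω hω' e => ?_) hH
    obtain ⟨a1, a2, a3, -⟩ := hY₀d ω ω' hω hω' e
    simp only [Prod.mk.injEq]
    exact ⟨a3, a1, a2⟩
  have c2 : CH q' Hs Y₀ ≤ δ₃ * J := by
    refine le_trans (CH_mono_cond h0 fun ω ω' hω hω' e => ?_) hV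
    obtain ⟨a1, a2, -, a4, -⟩ := hY₀d ω ω' hω hω' e
    simp only [Prod.mk.injEq]
    exact ⟨a4, a1, a2⟩
  have c3 : CH q' Hc Y₀ ≤ δ₃ * J + ((s' - s) * J * Real.log 2 + Real.log 7) := by
    have d1 := CH_le_add h0 Hc Hs Y₀
    have d2 : CH q' Hc (fun ω => (Hs ω, Y₀ ω)) ≤ (s' - s) * J * Real.log 2 + Real.log 7 := by
      rw [hHc]
      refine fl_cnt hq'l (fun ω => ojet F v 0 (Gv (zv' (slam F ⌊w * J⌋₊ ω))) ω) hss J _
        fun ω ω' _ _ e => ?_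
      have := (Prod.ext_iff.mp e).1
      rw [hHs] at this
      exact this
    linarith
  have c4 : CH q' (fun ω => (Hn ω, Rx ω)) Y₀ ≤ δ₂ * J + Real.log 5 := by
    have d1 := CH_le_add h0 (fun ω => (Hn ω, Rx ω)) Hn Y₀
    have d4 : CH q' (fun ω => (Hn ω, Rx ω)) (fun ω => (Hn ω, Y₀ ω)) ≤ Real.log 5 := by
      have e5 : (5 : ℝ) = 2 * ((2 : ℕ) : ℝ) + 1 := by norm_num
      have d5 : CH q' Rx (fun ω => (Hn ω, Y₀ ω)) ≤ Real.log 5 := by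
        rw [e5]
        refine CH_pair hq'l _ _ fun ω ω' hω hω' e => ?_
        have e1 := (Prod.ext_iff.mp e).1
        rw [hHn] at e1
        have g1 := fl_abs' (Real.rpow_pos_of_pos (by norm_num) _) e1
        rw [hRx]
        refine floor_sub_le (D := 1) ?_
        rw [← mul_sub, abs_mul, abs_of_pos (Real.rpow_pos_of_pos (by norm_num) _)]
        rw [abs_mul, abs_of_pos (Real.rpow_pos_of_pos (by norm_num) _)] at g1
        push_cast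
        refine (mul_le_mul_of_nonneg_right ?_ (abs_nonneg _)).trans g1
        refine Real.rpow_le_rpow_of_exponent_le (by norm_num) ?_
        exact mul_le_mul_of_nonneg_right (by linarith) hJ0
      refine le_trans (CH_mono_left h0 (X' := Rx) fun ω ω' _ _ e => ?_) d5
      simp only [Prod.mk.injEq] at e ⊢
      exact ⟨e.2.1, e.1⟩
    linarith
  -- the exchange
  obtain ⟨Y, hY⟩ : ∃ Y : F.Ω → V × ((Vv × ℤ) × ((Fin m → ℤ) × (ℕ × F.ζ))), Y = fun ω =>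
    (Z ω, ((Zv ω, Hc ω), (bI I U J F ω, F.W ω))) := ⟨_, rfl⟩
  obtain ⟨Ya, hYa⟩ : ∃ Ya : F.Ω → ℤ × ((Fin m → ℤ) × (((Va × Vb) × (V × Vv)) × (ℕ × F.ζ))),
    Ya = fun ω => (Hc ω, Y₀ ω) := ⟨_, rfl⟩
  obtain ⟨nI, hnI⟩ : ∃ nI : ℝ, nI = I.card * (((J - ⌊U * J⌋₊ : ℕ) : ℝ) * Real.log 2) :=
    ⟨_, rfl⟩
  rw [← hnI] at hful
  have g1 : CH q' Hn (fun ω => ((Vx ω, Xv ω), (Rx ω, Y ω))) ≤
      ((1 - h) * (q - x) * Real.log 2 + δ₁) * J + (Real.log 9 + Real.log 11) := by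
    have h1 := row_raw hq'l hq'A hlb he.le hrJ (p := p) (q := q) (x := x) f1 hp hx0 hxq
      (Cd := fun ω => ((Vx ω, Xv ω), (Rx ω, Y ω)))
      (Cd' := fun ω => (ceI (insert v I) (fun _ => J) (F.x ω), F.W ω)) (by
        intro ω ω' hω hω' e
        rw [hVx, hXv, hRx, hY, hZ] at e
        simp only [Prod.mk.injEq] at e
        obtain ⟨⟨e1, e2⟩, e3, e4, -, -, e5⟩ := e
        refine ⟨e3, e1, e4, (Prod.ext_iff.mp e5).1, ?_⟩
        refine Prod.ext (funext fun l => ?_) e5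
        have e6 := congrFun e1 l
        show ceI (insert v I) (fun _ => J) (F.x ω) l = ceI (insert v I) (fun _ => J) (F.x ω') l
        unfold ceI at e6 ⊢
        by_cases hl : l = v
        · rw [hl, if_pos (Finset.mem_insert_self v I), if_pos (Finset.mem_insert_self v I)]
          exact e2
        · by_cases hl2 : l ∈ I
          · rw [if_pos hl2, if_pos hl2] at e6
            rw [if_pos (Finset.mem_insert_of_mem hl2), if_pos (Finset.mem_insert_of_mem hl2)]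
            exact e6
          · have hl3 : l ∉ insert v I := fun h => (Finset.mem_insert.1 h).elim hl hl2
            rw [if_neg hl3, if_neg hl3])
    rw [hHn]
    linarith only [h1, hraw]
  have g2 : CH q' (fun ω => (Vx ω, Xv ω)) (fun ω => (Rx ω, Y ω)) ≤
      nI + ((1 - s') * J * Real.log 2 + Real.log 11) := by
    have d1 := CH_chain h0 Xv Vx (fun ω => (Rx ω, Y ω))
    have d2 : CH q' (fun ω => (Vx ω, Xv ω)) (fun ω => (Rx ω, Y ω)) =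
        CH q' (fun ω => (Xv ω, Vx ω)) (fun ω => (Rx ω, Y ω)) := by
      refine CH_congr h0 ?_ ?_ (fun _ _ _ _ e => e) (fun _ _ _ _ e => e)
      · intro ω ω' _ _ e
        simp only [Prod.mk.injEq] at e ⊢
        exact ⟨e.1.2, e.1.1⟩
      · intro ω ω' _ _ e
        simp only [Prod.mk.injEq] at e ⊢
        exact ⟨e.1.2, e.1.1⟩
    have d3 : CH q' Vx (fun ω => (Rx ω, Y ω)) ≤ nI := by
      refine le_trans (CH_mono_cond h0 fun ω ω' _ _ e => ?_) (hVx ▸ hnI ▸ ceI_cnt hq'l I hUJ)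
      rw [hY] at e
      simp only [Prod.mk.injEq] at e
      exact e.2.2.2.1
    have d4 : CH q' Xv (fun ω => (Vx ω, (Rx ω, Y ω))) ≤
        (1 - s') * J * Real.log 2 + Real.log 11 := by
      rw [hXv]
      refine pos_oj hq'l hq'A hlv hev.le hrvJ (s := s') f1v hs'.le _ fun ω ω' hω hω' e => ?_
      rw [hVx, hRx, hY, hHc, hZv] at e
      simp only [Prod.mk.injEq] at e
      obtain ⟨e1, -, -, ⟨e2, e3⟩, -, e5⟩ := e
      exact ⟨e3, e1, e2, (Prod.ext_iff.mp e5).1⟩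
    linarith only [d1, d2, d3, d4]
  have g3 : nI + (1 - s') * J * Real.log 2 - (ρ * J + δ₄ * J + δ₃ * J + Real.log 7) ≤
      CH q' (fun ω => (Vx ω, Xv ω)) Ya := by
    have d1 := CH_chain h0 Xv Vx Y₀
    have d2 : CH q' (fun ω => (Vx ω, Xv ω)) Y₀ = CH q' (fun ω => (Xv ω, Vx ω)) Y₀ := by
      refine CH_congr h0 ?_ ?_ (fun _ _ _ _ e => e) (fun _ _ _ _ e => e)
      · intro ω ω' _ _ e
        simp only [Prod.mk.injEq] at e ⊢
        exact ⟨e.1.2, e.1.1⟩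
      · intro ω ω' _ _ e
        simp only [Prod.mk.injEq] at e ⊢
        exact ⟨e.1.2, e.1.1⟩
    have d3 : nI - ρ * J ≤ CH q' Vx Y₀ := by
      rw [hVx, hY₀, hQ]
      exact hful
    have d4 : ((1 - s) * Real.log 2 - δ₄) * J ≤ CH q' Xv (fun ω => (Vx ω, Y₀ ω)) := by
      refine hfulv.trans ?_
      rw [hXv, hVx, hY₀, hQ]
      refine CH_mono_cond h0 fun ω ω' _ _ e => ?_
      simp only [Prod.mk.injEq] at e ⊢
      refine ⟨e.1, funext fun l => ?_, e.2⟩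
      have e6 := congrFun e.1 l
      unfold bI
      unfold ceI at e6 ⊢
      by_cases hl : l ∈ I
      · rw [if_pos hl, if_pos hl] at e6 ⊢
        exact fl_crs' hUJ e6
      · rw [if_neg hl, if_neg hl]
    have d5 := CH_exch h0 (fun ω => (Vx ω, Xv ω)) Hc Y₀
    have d6 : 0 ≤ CH q' Hc (fun ω => ((Vx ω, Xv ω), Y₀ ω)) := CH_nonneg h0 _ _
    rw [hYa]
    have d8 : ((1 - s) * Real.log 2 - δ₄) * J = (1 - s') * J * Real.log 2 +
        (s' - s) * J * Real.log 2 - δ₄ * J := by ring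
    linarith only [d1, d2, d3, d4, d5, d6, d8, c3]
  have g4 : ∀ ω ω', 0 < q' ω → 0 < q' ω' → Ya ω = Ya ω' → Y ω = Y ω' := by
    intro ω ω' hω hω' e
    rw [hYa] at e
    obtain ⟨e1, e2⟩ := Prod.ext_iff.mp e
    obtain ⟨a1, a2, -, -, a5, a6⟩ := hY₀d ω ω' hω hω' e2
    rw [hY]
    simp only [Prod.mk.injEq]
    exact ⟨a5, ⟨a6, e1⟩, a1, a2⟩
  have g5 : CH q' (fun ω => (Hn ω, Rx ω)) Ya ≤ δ₂ * J + Real.log 5 := by
    refine le_trans (CH_mono_cond h0 fun ω ω' _ _ e => ?_) c4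
    rw [hYa] at e
    exact (Prod.ext_iff.mp e).2
  have key := exch h0 Hn Rx (fun ω => (Vx ω, Xv ω)) Y Ya g1 g2 g3 g4 g5
  have hρJ : 3 * (ρ * J) + (δ₁ + δ₂ + δ₃ + δ₄) * J = δ * J := by
    rw [hρ]
    ring
  have goal1 : CH q' Hn (fun ω => (Rx ω, Y ω)) ≤
      ((1 - h) * (q - x) * Real.log 2 + δ) * J := by
    have : 0 ≤ ρ * J := mul_nonneg hρ0.le hJ0
    linarith only [key, f2, hρJ, this]
  rw [hHn, hRx, hY, hZ, hZv, hHc] at goal1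
  exact goal1

end Pool.OWN54
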