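import Pool.Agent.H54.OWN.Nfc

/-!
# The jets of order at least two of an own path over `I`, when the path over `I` is known

`f0_E`: the jets of order `j ≥ 2` of the own path of a coordinate over labels over `I` are few bits
given a closed function and `y`, if `y` knows the path over `I` to enough digits (whatever the
slope of the coordinate is).
-/

set_option autoImplicit false

namespace Pool.OWN54

open Finset Real MvPolynomial
open Pool.Agent.H49.Ent Pool.Agent.H32.Dense Pool.STK Pool.KA Pool.KSAT Pool.K2S Pool.PB Pool.GEN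
open Pool.S6C Pool.RCD Pool.LA91
open Pool.OWN68
open Pool.GRD (LbP Pb_mono_pos)
open Pool.UNJ (ceI Tub)
open Pool.BFL (Pb)

variable {m J : ℕ}

theorem jet_X_zero {j : ℕ} (hj : 2 ≤ j) (k : Option (Fin m)) (b v : Option (Fin m) → ℝ) :
    jet j (X k) b v = 0 := by
  unfold jet
  rw [aeval_X, Polynomial.iterate_derivative_eq_zero, Polynomial.eval_zero]
  exact lt_of_le_of_lt (natDegree_lp b v k) (by omega)

theorem ojet_two {F : Fam m J} {k : Fin m} {j : ℕ} (hj : 2 ≤ j)
    (G : MvPolynomial (Option (Fin m)) ℝ) (ω : F.Ω) :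
    ojet F k j G ω = -jet j G (bt F ω) (bd F ω) := by
  unfold ojet
  rw [jet_sub, jet_X_zero hj, zero_sub]

theorem bd_abs (F : Fam m J) (ω : F.Ω) (o : Option (Fin m)) : |bd F ω o| ≤ 1 := by
  cases o with
  | none =>
    have : bd F ω none = 1 := rfl
    rw [this, abs_one]
  | some i => exact F.dir ω i

/-- **The jets of order at least two at near positions and near velocities over `I`.** -/
theorem jetE_pt (m K : ℕ) {j : ℕ} (hj : 2 ≤ j) : ∃ C : ℝ, 1 ≤ C ∧ ∀ (J : ℕ) (F : Fam m J)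
    (I : Finset (Fin m)) (k : Fin m) (e w ρ P : ℕ) (A : F.Ω → Prop) (V : Type) (z : PtT F → V)
    (z' : LnT F → V) (G : V → MvPolynomial (Option (Fin m)) ℝ),
    LbOK F I k K e J w ρ P A z z' G → ∀ ω ω', A ω → A ω' → F.T ω = F.T ω' →
    z' (slam F w ω) = z' (slam F w ω') → ∀ a l W : ℕ, (∀ i ∈ I, F.X a ω i = F.X a ω' i) →
    (∀ i ∈ I, F.D l ω i = F.D l ω' i) → ρ ≤ W → W + 2 ≤ a →
    |ojet F k j (G (z' (slam F w ω))) ω - ojet F k j (G (z' (slam F w ω'))) ω'| ≤
      C * 2 ^ e * (2 ^ W) ^ j * (1 / 2 ^ a + 1 / 2 ^ (W + l)) := by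
  classical
  obtain ⟨C, hC, hj'⟩ := jet_sub_le m K j
  have hm0 : (0 : ℝ) ≤ m := Nat.cast_nonneg m
  have h4 : (1 : ℝ) ≤ 4 ^ j := one_le_pow₀ (by norm_num)
  refine ⟨C * (4 * (m + 1)) * 4 ^ j, ?_, ?_⟩
  · refine one_le_mul_of_one_le_of_one_le ?_ h4
    exact one_le_mul_of_one_le_of_one_le hC (by linarith)
  intro J F I k e w ρ P A V z z' G h ω ω' hω hω' hT hz a l W hX hD hρW hWa
  obtain ⟨g, hg⟩ : ∃ g, g = G (z' (slam F w ω)) := ⟨_, rfl⟩
  rw [← hz, ← hg, ojet_two hj, ojet_two hj]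
  have hlip := h.lip ω hω
  rw [← hg] at hlip
  obtain ⟨r, hr⟩ : ∃ r : ℝ, r = 1 / (4 * 2 ^ W) := ⟨_, rfl⟩
  have hr0 : 0 < r := by rw [hr]; positivity
  have h4r : 4 * r ≤ 1 / 2 ^ ρ := by
    have e1 : 4 * r = 1 / 2 ^ W := by
      rw [hr]
      field_simp
    rw [e1]
    exact one_div_le_one_div_of_le (by positivity) (pow_le_pow_right₀ (by norm_num) hρW)
  -- the point of `ω'` over `I`
  obtain ⟨b', hb'⟩ : ∃ b' : Option (Fin m) → ℝ, b' = fun o => match o with
    | none => bt F ω' none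
    | some i => if i ∈ I then bt F ω' (some i) else bt F ω (some i) := ⟨_, rfl⟩
  obtain ⟨v', hv'⟩ : ∃ v' : Option (Fin m) → ℝ, v' = fun o => match o with
    | none => bd F ω' none
    | some i => if i ∈ I then bd F ω' (some i) else bd F ω (some i) := ⟨_, rfl⟩
  have hdep : ∀ b b' : Option (Fin m) → ℝ, b none = b' none →
      (∀ i ∈ I, b (some i) = b' (some i)) → eval b g = eval b' g := by
    rw [hg]
    exact h.dep _
  have e1 : jet j g (bt F ω') (bd F ω') = jet j g b' v' := by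
    refine jet_congr hdep j ?_ ?_ ?_ ?_
    · rw [hb']
    · intro i hi
      rw [hb']
      simp only [if_pos hi]
    · rw [hv']
    · intro i hi
      rw [hv']
      simp only [if_pos hi]
  have hs : ∀ o, |b' o - bt F ω o| ≤ 1 / 2 ^ a := by
    intro o
    cases o with
    | none =>
      have e2 : b' none = bt F ω none := by
        rw [hb']
        show F.t ω' = F.t ω
        unfold Fam.t
        rw [hT]
      rw [e2, sub_self, abs_zero]
      positivity
    | some i =>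
      by_cases hi : i ∈ I
      · have e2 : b' (some i) = F.x ω' i := by
          rw [hb']
          simp only [if_pos hi]
          rfl
        have e3 : bt F ω (some i) = F.x ω i := rfl
        have g1 : |(2 : ℝ) ^ a * (F.x ω i - F.x ω' i)| ≤ 1 := fl_abs' (by positivity) (hX i hi)
        rw [abs_mul, abs_of_pos (by positivity)] at g1
        rw [e2, e3, abs_sub_comm, le_div_iff₀ (by positivity), mul_comm]
        exact g1
      · have e2 : b' (some i) = bt F ω (some i) := by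
          rw [hb']
          simp only [if_neg hi]
        rw [e2, sub_self, abs_zero]
        positivity
  have hσ : ∀ o, |v' o - bd F ω o| ≤ 1 / 2 ^ l := by
    intro o
    cases o with
    | none =>
      have e2 : v' none = bd F ω none := by
        rw [hv']
        rfl
      rw [e2, sub_self, abs_zero]
      positivity
    | some i =>
      by_cases hi : i ∈ I
      · have e2 : v' (some i) = F.d ω' i := by
          rw [hv']
          simp only [if_pos hi]
          rfl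
        have e3 : bd F ω (some i) = F.d ω i := rfl
        have g1 : |(2 : ℝ) ^ l * (F.d ω i - F.d ω' i)| ≤ 1 := fl_abs' (by positivity) (hD i hi)
        rw [abs_mul, abs_of_pos (by positivity)] at g1
        rw [e2, e3, abs_sub_comm, le_div_iff₀ (by positivity), mul_comm]
        exact g1
      · have e2 : v' (some i) = bd F ω (some i) := by
          rw [hv']
          simp only [if_neg hi]
        rw [e2, sub_self, abs_zero]
        positivity
  -- the polynomial without its value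
  obtain ⟨H, hH⟩ : ∃ H, H = g - MvPolynomial.C (eval (bt F ω) g) := ⟨_, rfl⟩
  have hjC : ∀ b v : Option (Fin m) → ℝ, jet j H b v = jet j g b v := by
    intro b v
    rw [hH, jet_sub]
    have : jet j (MvPolynomial.C (eval (bt F ω) g)) b v = 0 := by
      unfold jet
      rw [MvPolynomial.algHom_C, Polynomial.algebraMap_eq,
        Polynomial.iterate_derivative_eq_zero, Polynomial.eval_zero]
      rw [Polynomial.natDegree_C]
      omega
    rw [this, sub_zero]
  have hdeg : H.totalDegree ≤ K := by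
    rw [hH]
    refine (MvPolynomial.totalDegree_sub _ _).trans (max_le ?_ ?_)
    · rw [hg]
      exact h.deg _
    · rw [totalDegree_C]
      exact Nat.zero_le _
  have hla : (1 : ℝ) / 2 ^ a ≤ r := by
    rw [hr]
    refine one_div_le_one_div_of_le (by positivity) ?_
    calc (4 : ℝ) * 2 ^ W = 2 ^ (W + 2) := by
          rw [pow_add]
          ring
      _ ≤ 2 ^ a := pow_le_pow_right₀ (by norm_num) hWa
  have hl1 : (1 : ℝ) / 2 ^ l ≤ 1 := by
    rw [div_le_one (by positivity)]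
    exact one_le_pow₀ (by norm_num)
  have key := hj' H (bt F ω) b' (bt F ω) v' (bd F ω) r (1 / 2 ^ a) (1 / 2 ^ l)
    (2 ^ e * ((m + 1) * (4 * r))) hdeg hr0 (by positivity) (by positivity) (by
      have : r * (1 / 2 ^ l) ≤ r * 1 := mul_le_mul_of_nonneg_left hl1 hr0.le
      linarith) (by
      intro b hb
      rw [hH, map_sub, eval_C]
      refine (mvσ g (bt F ω) b (2 ^ e) fun y' hy' i =>
        hlip y' (fun o => ((hy' o).trans (hb o)).trans h4r) i).trans ?_
      refine mul_le_mul_of_nonneg_left ?_ (by positivity)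
      refine (Finset.sum_le_sum fun o _ => hb o).trans (le_of_eq ?_)
      rw [Finset.sum_const, Finset.card_univ, Fintype.card_option, Fintype.card_fin, nsmul_eq_mul]
      push_cast
      ring) (fun o => by
      rw [sub_self, abs_zero]
      exact hr0.le) (fun o => bd_abs F ω o) hs hσ
  rw [hjC, hjC] at key
  rw [e1]
  have e5 : -jet j g (bt F ω) (bd F ω) - -jet j g b' v' =
      jet j g b' v' - jet j g (bt F ω) (bd F ω) := by ring
  rw [e5]
  refine key.trans ?_
  have e6 : r ^ j = 1 / (4 ^ j * (2 ^ W) ^ j) := by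
    rw [hr, div_pow, one_pow, mul_pow]
  have e7 : r * (1 / 2 ^ l) ≤ 1 / 2 ^ (W + l) := by
    rw [hr, pow_add, one_div_mul_one_div]
    refine one_div_le_one_div_of_le (by positivity) ?_
    have : (0 : ℝ) < 2 ^ W * 2 ^ l := by positivity
    linarith
  rw [e6]
  have e8 : C * (2 ^ e * ((m + 1) * (4 * r))) * ((1 / 2 ^ a + r * (1 / 2 ^ l)) / r) /
      (1 / (4 ^ j * (2 ^ W) ^ j)) = C * (4 * (m + 1)) * 4 ^ j * 2 ^ e * (2 ^ W) ^ j *
        (1 / 2 ^ a + r * (1 / 2 ^ l)) := by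
    field_simp
  rw [e8]
  exact mul_le_mul_of_nonneg_left (by linarith) (by positivity)


/-- **The jets of order at least two are few bits**, if `y` knows the path over `I`. -/
theorem f0_E {S : PCl m} {C₀ : ℝ} (htm : TmC S C₀) {I : Finset (Fin m)} {κ : Fin m} {j : ℕ}
    (hj : 2 ≤ j) {w a p r N lam ρ : ℝ} (hr : 0 ≤ r) (hrw : r < w) (hwa : w ≤ a) (ha : a ≤ 1)
    (hlam : 0 < lam) (hwl : w + lam ≤ 1) (hatt : Att S I κ w p r)
    (hful : ∀ u : ℝ, w < u → u < 1 → Ful S I w u)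
    {α γ : ∀ J : ℕ, Fam m J → Type} {f : ∀ (J : ℕ) (F : Fam m J), F.Ω → α J F}
    {y : ∀ (J : ℕ) (F : Fam m J), F.Ω → γ J F}
    (hf : ∀ (J : ℕ) (F : Fam m J), ∃ φ : α J F → PtT F, ∀ ω, ptr F J ω = φ (f J F ω))
    (hy : Kn I (w + lam) lam y) (hρ : 0 < ρ) (h1 : N + j * w + ρ ≤ w + lam)
    (h2 : N + j * w + ρ ≤ p + lam) {h : ℝ} (hh : 0 < h) :
    F0 S f (vg a) y (qJet m I κ j w p N) (ρ / 4) h := by
  classical
  have hw0 : 0 < w := by linarith
  obtain ⟨e₁, he₁⟩ : ∃ e₁ : ℝ, e₁ = min (ρ / 8) ((w - r) / 2) := ⟨_, rfl⟩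
  have he0 : 0 < e₁ := by
    rw [he₁]
    exact lt_min (by positivity) (by linarith)
  have hea : e₁ ≤ ρ / 8 := by rw [he₁]; exact min_le_left _ _
  have heb : e₁ ≤ (w - r) / 2 := by rw [he₁]; exact min_le_right _ _
  have H1 := few_jet_e (y := y) htm (I := I) (k := κ) (j := j) (w := w) (w₁ := w) (w₂ := w)
    (p₁ := p) (p₂ := p) (N₁ := N) (N₂ := N) (p₀ := w + lam) (lam := lam) (u₀ := w) le_rfl le_rfl
    (hwa.trans ha) le_rfl hw0.le (by linarith) hwl hful hf hy le_rfl hρ (by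
      have e1 : w + lam - w = lam := by ring
      rw [e1, min_self, min_self]
      exact h2) (half_pos hh)
  replace H1 := F1.up hwa ha H1
  intro K
  obtain ⟨K₀, hK₀⟩ := hatt e₁ he0
  obtain ⟨M, J₁, hcnt⟩ := cnt_jet m K₀ j (N := N) (w := w) hr he0
  obtain ⟨C, hC, hpt⟩ := jetE_pt m K₀ hj
  have hl2 : 0 < Real.log 2 := Real.log_pos one_lt_two
  have hl7 : 0 ≤ Real.log 7 := Real.log_nonneg (by norm_num)
  have hl12 : 0 ≤ Real.log (6 * C) := Real.log_nonneg (by linarith)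
  obtain ⟨J₂, hJ₂⟩ := exists_nat_ge (Real.log (6 * C) / (ρ / 2 * Real.log 2) + 4 / lam +
    Real.log 7 / (h / 2))
  refine Bas.mono (max J₁ J₂) ((H1 (max K (max K₀ M))).and
    (hK₀.and (Pool.GRW.tmc_bas htm one_pos))) ?_
  rintro J hJ F A ⟨H1, ⟨V, z, z', G, hlb⟩, hA, -⟩ u' hu'
  have hJ1 : J₁ ≤ J := (le_max_left _ _).trans hJ
  have hJ2 : (J₂ : ℝ) ≤ J := by exact_mod_cast (le_max_right _ _).trans hJ
  have hJ0 : (0 : ℝ) ≤ J := Nat.cast_nonneg J
  have t1 : 0 ≤ Real.log (6 * C) / (ρ / 2 * Real.log 2) := by positivity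
  have t2 : 0 < 4 / lam := by positivity
  have t3 : 0 ≤ Real.log 7 / (h / 2) := by positivity
  have f1 : Real.log (6 * C) ≤ ρ / 2 * Real.log 2 * J := by
    have : Real.log (6 * C) / (ρ / 2 * Real.log 2) ≤ J := by linarith
    rw [div_le_iff₀ (by positivity)] at this
    linarith
  have f2 : 4 ≤ lam * J := by
    have : 4 / lam ≤ J := by linarith
    rw [div_le_iff₀ hlam] at this
    linarith
  have f3 : Real.log 7 ≤ h / 2 * J := by
    have : Real.log 7 / (h / 2) ≤ J := by linarith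
    rw [div_le_iff₀ (by positivity)] at this
    linarith
  obtain ⟨q', hq'⟩ : ∃ q' : F.Ω → ℝ, q' = Pool.Agent.H49.Ent.cond F.p A True := ⟨_, rfl⟩
  have hq'l : IsLaw q' := by
    rw [hq']
    exact isLaw_cond F.isLaw hA
  have h0 := hq'l.nonneg
  have hq'A : ∀ ω, 0 < q' ω → A ω := fun ω hω => by
    rw [hq'] at hω
    exact of_cond_pos hω
  -- the anchor
  obtain ⟨u, hu⟩ : ∃ u : F.Ω → ℤ, u = fun ω => ⌊(2 : ℝ) ^ (N * J) *
    ojet F κ j (G (z' (slam F ⌊w * J⌋₊ ω))) ω⌋ := ⟨_, rfl⟩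
  have hP : (qJet m I κ j w p N).P (max K (max K₀ M)) (ρ / 4) J F A u := by
    refine ⟨?_, V, z, z', G, ?_, fun ω _ => by rw [hu]⟩
    · rw [hu]
      refine (hcnt J hJ1 F I κ _ A V z z' G hlb).trans
        (Real.exp_le_exp.2 (mul_le_mul_of_nonneg_right ?_ hJ0))
      exact_mod_cast (le_max_right K₀ M).trans (le_max_right K _)
    · refine (LbP.of hlb).mono (Finset.Subset.refl _)
        ((le_max_left K₀ M).trans (le_max_right K _)) ?_
      exact Nat.floor_le_floor (mul_le_mul_of_nonneg_right (by linarith) hJ0)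
  obtain ⟨V₁, z₁, hz₁, H1⟩ := H1 u u' hP ((qJet m I κ j w p N).mono (le_max_left _ _) le_rfl hu')
  rw [← hq'] at H1
  have key : CH q' u (fun ω => (z' (slam F ⌊w * J⌋₊ ω), y J F ω)) ≤ Real.log 7 := by
    have e5 : (7 : ℝ) = 2 * ((3 : ℕ) : ℝ) + 1 := by norm_num
    rw [e5]
    refine CH_pair hq'l _ _ fun ω ω' hω hω' e => ?_
    obtain ⟨e1, e2⟩ := Prod.ext_iff.mp e
    obtain ⟨φ, hφ⟩ := hy J F
    have e3 : (F.T ω, (fun i => if i ∈ I then F.X ⌊(w + lam) * J⌋₊ ω i else 0),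
        (fun i => if i ∈ I then F.D ⌊lam * J⌋₊ ω i else 0)) =
        (F.T ω', (fun i => if i ∈ I then F.X ⌊(w + lam) * J⌋₊ ω' i else 0),
        (fun i => if i ∈ I then F.D ⌊lam * J⌋₊ ω' i else 0)) := by
      rw [← hφ ω, ← hφ ω']
      exact congrArg φ e2
    simp only [Prod.mk.injEq] at e3
    obtain ⟨hT, hX, hD⟩ := e3
    have hX' : ∀ i ∈ I, F.X ⌊(w + lam) * J⌋₊ ω i = F.X ⌊(w + lam) * J⌋₊ ω' i := fun i hi => by
      have := congrFun hX i
      simp only [if_pos hi] at this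
      exact this
    have hD' : ∀ i ∈ I, F.D ⌊lam * J⌋₊ ω i = F.D ⌊lam * J⌋₊ ω' i := fun i hi => by
      have := congrFun hD i
      simp only [if_pos hi] at this
      exact this
    have g1 := hpt J F I κ ⌊e₁ * J⌋₊ ⌊w * J⌋₊ ⌊(r + e₁) * J⌋₊ _ A V z z' G hlb ω ω' (hq'A ω hω)
      (hq'A ω' hω') hT e1 ⌊(w + lam) * J⌋₊ ⌊lam * J⌋₊ ⌊w * J⌋₊ hX' hD'
      (Nat.floor_le_floor (mul_le_mul_of_nonneg_right (by linarith) hJ0)) (by
        refine Nat.le_floor ?_
        push_cast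
        have : (⌊w * J⌋₊ : ℝ) ≤ w * J := Nat.floor_le (by positivity)
        linarith)
    rw [hu]
    refine floor_sub_le (D := 2) ?_
    rw [← mul_sub, abs_mul, abs_of_pos (Real.rpow_pos_of_pos (by norm_num) _)]
    have a1 : (2 : ℝ) ^ ⌊e₁ * J⌋₊ ≤ 2 ^ (e₁ * J) := p2_le (by positivity)
    have a2 : ((2 : ℝ) ^ ⌊w * J⌋₊) ^ j ≤ 2 ^ (j * (w * J)) := by
      refine (pow_le_pow_left₀ (by positivity) (p2_le (by positivity)) j).trans (le_of_eq ?_)
      rw [← Real.rpow_natCast, ← Real.rpow_mul (by norm_num)]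
      congr 1
      ring
    have a3 : (1 : ℝ) / 2 ^ ⌊(w + lam) * J⌋₊ ≤ 2 * 2 ^ (-((w + lam) * J)) := ip2_le _
    have a4 : (1 : ℝ) / 2 ^ (⌊w * J⌋₊ + ⌊lam * J⌋₊) ≤ 4 * 2 ^ (-((w + lam) * J)) := by
      have b1 := ip2_le (w * J)
      have b2 := ip2_le (lam * J)
      have e6 : (1 : ℝ) / 2 ^ (⌊w * J⌋₊ + ⌊lam * J⌋₊) =
          1 / 2 ^ ⌊w * J⌋₊ * (1 / 2 ^ ⌊lam * J⌋₊) := by
        rw [pow_add, one_div_mul_one_div]
      have e7 : (4 : ℝ) * 2 ^ (-((w + lam) * J)) =
          2 * 2 ^ (-(w * J)) * (2 * 2 ^ (-(lam * J))) := by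
        have : -((w + lam) * (J : ℝ)) = -(w * J) + -(lam * J) := by ring
        rw [this, Real.rpow_add (by norm_num)]
        ring
      rw [e6, e7]
      exact mul_le_mul b1 b2 (by positivity) (by positivity)
    have b0 : (0 : ℝ) < 2 ^ (N * J) := Real.rpow_pos_of_pos (by norm_num) _
    have b1 : (0 : ℝ) < 2 ^ (e₁ * J) := Real.rpow_pos_of_pos (by norm_num) _
    have b2 : (0 : ℝ) < 2 ^ (j * (w * J)) := Real.rpow_pos_of_pos (by norm_num) _
    have b3 : (0 : ℝ) < 2 ^ (-((w + lam) * J)) := Real.rpow_pos_of_pos (by norm_num) _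
    have hC0 : 0 < C := by linarith
    push_cast
    calc (2 : ℝ) ^ (N * J) * |ojet F κ j (G (z' (slam F ⌊w * J⌋₊ ω))) ω -
          ojet F κ j (G (z' (slam F ⌊w * J⌋₊ ω'))) ω'|
        ≤ 2 ^ (N * J) * (C * 2 ^ ⌊e₁ * J⌋₊ * (2 ^ ⌊w * J⌋₊) ^ j *
          (1 / 2 ^ ⌊(w + lam) * J⌋₊ + 1 / 2 ^ (⌊w * J⌋₊ + ⌊lam * J⌋₊))) :=
          mul_le_mul_of_nonneg_left g1 b0.le
      _ ≤ 2 ^ (N * J) * (C * 2 ^ (e₁ * J) * 2 ^ (j * (w * J)) *
          (6 * 2 ^ (-((w + lam) * J)))) := by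
          refine mul_le_mul_of_nonneg_left ?_ b0.le
          refine mul_le_mul ?_ (by linarith) (by positivity) (by positivity)
          exact mul_le_mul (mul_le_mul_of_nonneg_left a1 hC0.le) a2 (by positivity) (by positivity)
      _ = 6 * C * (2 ^ (N * J) * 2 ^ (e₁ * J) * 2 ^ (j * (w * J)) * 2 ^ (-((w + lam) * J))) := by
          ring
      _ = 6 * C * 2 ^ (N * J + e₁ * J + j * (w * J) + -((w + lam) * J)) := by
          rw [Real.rpow_add (by norm_num), Real.rpow_add (by norm_num),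
            Real.rpow_add (by norm_num)]
      _ ≤ 6 * C * 2 ^ (-(ρ / 2 * J)) := by
          refine mul_le_mul_of_nonneg_left ?_ (by positivity)
          refine Real.rpow_le_rpow_of_exponent_le (by norm_num) ?_
          have e8 : N * J + e₁ * J + j * (w * J) + -((w + lam) * J) =
              (N + j * w + e₁ - (w + lam)) * J := by ring
          have e9 : -(ρ / 2 * (J : ℝ)) = (-(ρ / 2)) * J := by ring
          rw [e8, e9]
          exact mul_le_mul_of_nonneg_right (by linarith) hJ0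
      _ ≤ 1 := by
          have e8 : 6 * C = Real.exp (Real.log (6 * C)) := (Real.exp_log (by positivity)).symm
          rw [← exp_p2, e8, ← Real.exp_add, Real.exp_le_one_iff]
          linarith
      _ ≤ (2 : ℝ) := by norm_num
  -- the end
  obtain ⟨φf, hφf⟩ := hf J F
  obtain ⟨φg, hφg⟩ := vg_mono hwa ha J F
  refine ⟨V × V₁, fun ω => (z' (slam F ⌊w * J⌋₊ ω), z₁ ω), Cl2.join ⟨?_, ?_⟩ hz₁, ?_⟩
  · refine ⟨fun x => z (φf x), fun ω hω => ?_⟩
    dsimp only
    rw [← hφf ω, hlb.cls ω hω]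
  · refine ⟨fun x => z' (φg x), fun ω _ => ?_⟩
    dsimp only
    rw [← hφg ω]
    rfl
  · rw [← hq']
    have s1 := CH_le_add h0 u' u (fun ω => ((z' (slam F ⌊w * J⌋₊ ω), z₁ ω), y J F ω))
    have s2 : CH q' u (fun ω => ((z' (slam F ⌊w * J⌋₊ ω), z₁ ω), y J F ω)) ≤ Real.log 7 := by
      refine le_trans (CH_mono_cond h0 fun ω ω' _ _ e => ?_) key
      simp only [Prod.mk.injEq] at e ⊢
      exact ⟨e.1.1, e.2⟩
    have s3 : CH q' u' (fun ω => (u ω, ((z' (slam F ⌊w * J⌋₊ ω), z₁ ω), y J F ω))) ≤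
        h / 2 * J := by
      refine le_trans (CH_mono_cond h0 fun ω ω' _ _ e => ?_) H1
      simp only [Prod.mk.injEq] at e ⊢
      exact ⟨e.1, e.2.1.2, e.2.2⟩
    linarith

end Pool.OWN54
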