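import Pool.Agent.H17.OWN.P3

/-!
# A slope which is closed

One finite law `p` of lines `L` with a time `T`; `Tc` are the first digits of the time; `G` is the
record of the ball at the time; `D`, `U` are velocities (functions of the line), `P` is the position
with the context of the line (a function of `L` and `T`), `B` is a function of the record (a slope).

`betac`: if `U` has few bits given `P`, if for two samples with the same record and a third sample
with the line and the coarse time of the second one `P` has few values given the first line, the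
coarse time, `D` of the second line and the third time, if `B` has few bits given the first line and
`(U, D)` of the second line, and if the record does not know more about `D` than `Z` (a function of
the line and of the record), then `B` has few bits given the line and the coarse time.

`tie_step`: one step of the comparison of two mutual informations.
-/

set_option autoImplicit false

namespace Pool.OWN54

open Finset Real
open Pool.Agent.H49.Ent Pool.Agent.H32.Dense Pool.STK Pool.CH30 Pool.KM7 Pool.OWN17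

variable {Ω Λ 𝒯 κ 𝒢 𝒟 𝒰 𝒬 ℬ 𝒵 : Type} [Fintype Ω] {p : Ω → ℝ}

theorem betac (hp : IsLaw p) {L : Ω → Λ} {T : Ω → 𝒯} {Tc : Ω → κ} {G : Ω → 𝒢} {D : Ω → 𝒟}
    {U : Ω → 𝒰} {P : Ω → 𝒬} {B : Ω → ℬ} {Z : Ω → 𝒵} (hGT : Det p G Tc)
    (hGZ : Det p G Z) (hLZ : Det p L Z) (hLU : Det p L U)
    (S : Λ → κ → 𝒟 → 𝒯 → Finset 𝒬) {K : ℕ} (hK : 1 ≤ K)
    (hS : ∀ l c d t, (S l c d t).card ≤ K)
    (hP : ∀ ω₁ ω₂ ω₃, 0 < p ω₁ → 0 < p ω₂ → 0 < p ω₃ → G ω₁ = G ω₂ → L ω₂ = L ω₃ →
      Tc ω₂ = Tc ω₃ → P ω₃ ∈ S (L ω₁) (Tc ω₁) (D ω₂) (T ω₃)) :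
    CH p B (fun ω => (L ω, Tc ω)) ≤ CH p U P + Real.log K +
      (CH p T Tc - CH p T (fun ω => (L ω, Tc ω))) +
      CH (P2 p G) (fun w => B w.1) (fun w => (L w.1, (Tc w.1, (U w.2, D w.2)))) +
      (CH p D Z - CH p D G) := by
  classical
  have h0 := hp.nonneg
  set q₂ := P2 p G with hq₂
  have hq₂l : IsLaw q₂ := P2_isLaw hp G
  have h20 := hq₂l.nonneg
  set A₁ : Ω × Ω → Λ × κ := fun w => (L w.2, Tc w.2) with hA₁
  set A₂ : Ω → Λ × κ := fun ω => (L ω, Tc ω) with hA₂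
  have hZ : ∀ z, law q₂ A₁ z = law p A₂ z := fun z =>
    law_glue_snd h0 (fun _ => rfl) A₂ z
  set q := glue q₂ p A₁ A₂ with hq
  have hql : IsLaw q := ⟨glue_nonneg h20 h0, (sum_glue h20 hZ).trans hq₂l.sum_one⟩
  have hq0 := hql.nonneg
  have hpos : ∀ w, 0 < q w → 0 < p w.1.1 ∧ 0 < p w.1.2 ∧ 0 < p w.2 ∧ G w.1.1 = G w.1.2 ∧
      L w.1.2 = L w.2 ∧ Tc w.1.2 = Tc w.2 := by
    intro w hw
    obtain ⟨a, b, c⟩ := (glue_pos_iff h20 h0 w).mp hw
    obtain ⟨d, e, f⟩ := (P2_pos hp w.1).mp a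
    exact ⟨d, e, b, f, (Prod.ext_iff.mp c).1, (Prod.ext_iff.mp c).2⟩
  have hTc12 : ∀ w, 0 < q w → Tc w.1.1 = Tc w.1.2 := fun w hw =>
    hGT _ _ (hpos w hw).1 (hpos w hw).2.1 (hpos w hw).2.2.2.1
  -- the condition: the first line, the coarse time
  set C : (Ω × Ω) × Ω → Λ × κ := fun w => (L w.1.1, Tc w.1.1) with hC
  set D₂ : (Ω × Ω) × Ω → 𝒟 := fun w => D w.1.2 with hD₂
  set U₂ : (Ω × Ω) × Ω → 𝒰 := fun w => U w.1.2 with hU₂
  set T₃ : (Ω × Ω) × Ω → 𝒯 := fun w => T w.2 with hT₃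
  set P₃ : (Ω × Ω) × Ω → 𝒬 := fun w => P w.2 with hP₃
  set B₁ : (Ω × Ω) × Ω → ℬ := fun w => B w.1.1 with hB₁
  -- (1) `U` of the second line given `P` of the third sample
  have k1 : CH q U₂ P₃ = CH p U P := by
    have e1 : CH q U₂ P₃ = CH q (fun w => U w.2) P₃ :=
      CH_supp hq0 (fun w hw => hLU _ _ (hpos w hw).2.1 (hpos w hw).2.2.1 (hpos w hw).2.2.2.2.1)
        (fun _ _ => rfl)
    rw [e1]
    exact CH_glue_snd h0 hZ U P
  -- (2) `P` of the third sample
  have k2 : CH q P₃ (fun w => (T₃ w, (D₂ w, C w))) ≤ Real.log K := by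
    refine (CH_le_card hq0 hql.sum_one P₃ (fun w => (T₃ w, (D₂ w, C w)))
      (fun z => S z.2.2.1 z.2.2.2 z.2.1 z.1) (fun w hw => ?_)).trans ?_
    · obtain ⟨a, b, c, d, e, f⟩ := hpos w hw
      exact hP _ _ _ a b c d e f
    · rw [← Ex_const hql.sum_one (Real.log K)]
      refine Ex_mono hq0 fun w hw => ?_
      rcases Nat.eq_zero_or_pos (S (C w).1 (C w).2 (D₂ w) (T₃ w)).card with hz | hz
      · show Real.log ((S (C w).1 (C w).2 (D₂ w) (T₃ w)).card : ℝ) ≤ Real.log K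
        rw [hz, Nat.cast_zero, Real.log_zero]
        exact Real.log_nonneg (by exact_mod_cast hK)
      · exact Real.log_le_log (by exact_mod_cast hz) (by exact_mod_cast hS _ _ _ _)
  have k3 : CH q U₂ (fun w => (T₃ w, (D₂ w, C w))) ≤ CH p U P + Real.log K := by
    have e1 := CH_chain hq0 U₂ P₃ (fun w => (T₃ w, (D₂ w, C w)))
    have e2 : CH q U₂ (fun w => (T₃ w, (D₂ w, C w))) ≤
        CH q (fun w => (U₂ w, P₃ w)) (fun w => (T₃ w, (D₂ w, C w))) :=
      CH_mono_left hq0 (fun _ _ _ _ h => (Prod.ext_iff.mp (Prod.ext_iff.mp h).1).1)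
    have e3 : CH q U₂ (fun w => (P₃ w, (T₃ w, (D₂ w, C w)))) ≤ CH q U₂ P₃ :=
      CH_mono_cond hq0 (fun _ _ _ _ h => (Prod.ext_iff.mp h).1)
    linarith
  -- (3) the third time is independent
  have k4 : CH q T₃ (fun w => (U₂ w, (D₂ w, C w))) ≥ CH p T A₂ := by
    have e1 : CH q T₃ (fun w => w.1) = CH p T A₂ :=
      CH_snd_fst h20 h0 hZ (X := fun w => w) (fun w w' _ _ h => congrArg A₁ (h : w = w')) T
    have e2 : CH q T₃ (fun w => w.1) ≤ CH q T₃ (fun w => (U₂ w, (D₂ w, C w))) :=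
      CH_mono_cond hq0 (fun w w' _ _ h => by
        have h' : w.1 = w'.1 := h
        simp only [hU₂, hD₂, hC, h'])
    linarith
  have k5 : CH q T₃ (fun w => (D₂ w, C w)) ≤ CH p T Tc := by
    have e1 : CH q T₃ (fun w => (D₂ w, C w)) ≤ CH q T₃ (fun w => Tc w.1.1) :=
      CH_mono_cond hq0 (fun _ _ _ _ h => (Prod.ext_iff.mp (Prod.ext_iff.mp h).2).2)
    have e2 : CH q T₃ (fun w => Tc w.1.1) = CH q T₃ (fun w => Tc w.2) :=
      CH_supp hq0 (fun _ _ => rfl)
        (fun w hw => (hTc12 w hw).trans (hpos w hw).2.2.2.2.2)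
    have e3 : CH q T₃ (fun w => Tc w.2) = CH p T Tc := CH_glue_snd h0 hZ T Tc
    linarith
  have k6 : CH q U₂ (fun w => (D₂ w, C w)) ≤ CH p U P + Real.log K +
      (CH p T Tc - CH p T A₂) := by
    have e1 := CH_chain hq0 U₂ T₃ (fun w => (D₂ w, C w))
    have e2 := CH_chain hq0 T₃ U₂ (fun w => (D₂ w, C w))
    have e3 : CH q (fun w => (U₂ w, T₃ w)) (fun w => (D₂ w, C w)) =
        CH q (fun w => (T₃ w, U₂ w)) (fun w => (D₂ w, C w)) := by
      refine CH_congr hq0 ?_ ?_ (fun _ _ _ _ h => h) (fun _ _ _ _ h => h) <;>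
      · intro ω ω' _ _ h
        simp only [Prod.mk.injEq] at h ⊢
        tauto
    linarith
  -- (4) the slope given `U`, `D` and the first line
  have k7 : CH q B₁ (fun w => (U₂ w, (D₂ w, C w))) =
      CH q₂ (fun w => B w.1) (fun w => (L w.1, (Tc w.1, (U w.2, D w.2)))) := by
    have e1 : CH q B₁ (fun w => (U₂ w, (D₂ w, C w))) =
        CH q₂ (fun w => B w.1) (fun w => (U w.2, (D w.2, (L w.1, Tc w.1)))) :=
      CH_glue_fst h20 hZ (fun w => B w.1) (fun w => (U w.2, (D w.2, (L w.1, Tc w.1))))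
    rw [e1]
    refine CH_congr h20 (fun _ _ _ _ h => (Prod.ext_iff.mp h).1)
      (fun _ _ _ _ h => (Prod.ext_iff.mp h).1) ?_ ?_ <;>
    · intro ω ω' _ _ h
      simp only [Prod.mk.injEq] at h ⊢
      tauto
  have k8 : CH q B₁ (fun w => (D₂ w, C w)) ≤ CH q U₂ (fun w => (D₂ w, C w)) +
      CH q B₁ (fun w => (U₂ w, (D₂ w, C w))) := by
    have e1 := CH_chain hq0 B₁ U₂ (fun w => (D₂ w, C w))
    have e2 : CH q B₁ (fun w => (D₂ w, C w)) ≤
        CH q (fun w => (B₁ w, U₂ w)) (fun w => (D₂ w, C w)) :=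
      CH_mono_left hq0 (fun _ _ _ _ h => (Prod.ext_iff.mp (Prod.ext_iff.mp h).1).1)
    linarith
  -- (5) `D` of the second line given the first line
  have k9 : CH q D₂ C ≤ CH p D Z := by
    have e1 : CH q D₂ C ≤ CH q D₂ (fun w => Z w.1.1) :=
      CH_mono_cond hq0 (fun w w' hw hw' h =>
        hLZ _ _ (hpos w hw).1 (hpos w' hw').1 (Prod.ext_iff.mp h).1)
    have e2 : CH q D₂ (fun w => Z w.1.1) = CH q D₂ (fun w => Z w.1.2) :=
      CH_supp hq0 (fun _ _ => rfl)
        (fun w hw => hGZ _ _ (hpos w hw).1 (hpos w hw).2.1 (hpos w hw).2.2.2.1)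
    have e3 : CH q D₂ (fun w => Z w.1.2) = CH q₂ (fun w => D w.2) (fun w => Z w.2) :=
      CH_glue_fst h20 hZ (fun w => D w.2) (fun w => Z w.2)
    have e4 : CH q₂ (fun w => D w.2) (fun w => Z w.2) = CH p D Z :=
      CH_glue_snd h0 (fun _ => rfl) D Z
    linarith
  have k10 : CH p D G ≤ CH q D₂ (fun w => (B₁ w, C w)) := by
    have e1 : CH q D₂ (fun w => w.1.1) = CH q₂ (fun w => D w.2) (fun w => w.1) :=
      CH_glue_fst h20 hZ (fun w => D w.2) (fun w => w.1)
    have e2 : CH q₂ (fun w => D w.2) (fun w => w.1) = CH p D G :=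
      P2_ind hp G D (X := fun ω => ω) (fun ω ω' _ _ h => congrArg G (h : ω = ω'))
    have e3 : CH q D₂ (fun w => w.1.1) ≤ CH q D₂ (fun w => (B₁ w, C w)) :=
      CH_mono_cond hq0 (fun w w' _ _ h => by
        have h' : w.1.1 = w'.1.1 := h
        simp only [hB₁, hC, h'])
    linarith
  have k11 : CH q B₁ C ≤ CH q B₁ (fun w => (D₂ w, C w)) + (CH p D Z - CH p D G) := by
    have e1 := CH_chain hq0 B₁ D₂ C
    have e2 := CH_chain hq0 D₂ B₁ C
    have e3 : CH q (fun w => (B₁ w, D₂ w)) C = CH q (fun w => (D₂ w, B₁ w)) C := by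
      refine CH_congr hq0 ?_ ?_ (fun _ _ _ _ h => h) (fun _ _ _ _ h => h) <;>
      · intro ω ω' _ _ h
        simp only [Prod.mk.injEq] at h ⊢
        tauto
    linarith
  have k12 : CH q B₁ C = CH p B A₂ := by
    have e1 : CH q B₁ C = CH q₂ (fun w => B w.1) (fun w => (L w.1, Tc w.1)) :=
      CH_glue_fst h20 hZ (fun w => B w.1) (fun w => (L w.1, Tc w.1))
    rw [e1]
    exact CH_glue_fst h0 (fun _ => rfl) B A₂
  rw [← k12]
  linarith

/-! ### Ties -/

section tie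

variable {S T U V W X : Type}

/-- Mutual information given `Y`. -/
noncomputable def tie (p : Ω → ℝ) (z : Ω → S) (v : Ω → T) (Y : Ω → U) : ℝ :=
  CH p v Y - CH p v (fun ω => (z ω, Y ω))

theorem tie_symm (hp : IsLaw p) (z : Ω → S) (v : Ω → T) (Y : Ω → U) :
    tie p z v Y = tie p v z Y := by
  have h0 := hp.nonneg
  have e1 := CH_chain h0 v z Y
  have e2 := CH_chain h0 z v Y
  have e3 : CH p (fun w => (v w, z w)) Y = CH p (fun w => (z w, v w)) Y := by
    refine CH_congr h0 ?_ ?_ (fun _ _ _ _ h => h) (fun _ _ _ _ h => h) <;>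
    · intro ω ω' _ _ h
      simp only [Prod.mk.injEq] at h ⊢
      tauto
  unfold tie
  linarith

/-- More digits of one side. -/
theorem tie_more (hp : IsLaw p) (z : Ω → S) {v : Ω → T} {v₁ : Ω → V} (Y : Ω → U)
    (hv : Det p v v₁) :
    tie p z v Y = tie p z v₁ Y + (CH p v (fun ω => (v₁ ω, Y ω)) -
      CH p v (fun ω => (v₁ ω, (z ω, Y ω)))) := by
  have h0 := hp.nonneg
  have e1 := CH_chain h0 v v₁ Y
  have e2 := CH_chain h0 v v₁ (fun ω => (z ω, Y ω))
  have e3 : CH p (fun w => (v w, v₁ w)) Y = CH p v Y :=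
    CH_congr h0 (fun _ _ _ _ h => (Prod.ext_iff.mp (Prod.ext_iff.mp h).1).1)
      (fun ω ω' a b h => by
        have h1 := (Prod.ext_iff.mp h).1
        exact Prod.ext h1 (hv _ _ a b h1)) (fun _ _ _ _ h => h) (fun _ _ _ _ h => h)
  have e4 : CH p (fun w => (v w, v₁ w)) (fun ω => (z ω, Y ω)) = CH p v (fun ω => (z ω, Y ω)) :=
    CH_congr h0 (fun _ _ _ _ h => (Prod.ext_iff.mp (Prod.ext_iff.mp h).1).1)
      (fun ω ω' a b h => by
        have h1 := (Prod.ext_iff.mp h).1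
        exact Prod.ext h1 (hv _ _ a b h1)) (fun _ _ _ _ h => h) (fun _ _ _ _ h => h)
  unfold tie
  linarith

/-- **One step**: `z₁` is a coarser `z`, `v₁` a coarser `v`; `v` is nearly full behind `v₁` given
`z`, and `z` is nearly full behind `z₁` given `v₁`. -/
theorem tie_step (hp : IsLaw p) {z : Ω → S} {z₁ : Ω → W} {v : Ω → T} {v₁ : Ω → V} (Y : Ω → U)
    (hz : Det p z z₁) (hv : Det p v v₁) :
    tie p z v Y = tie p z₁ v₁ Y + (CH p v (fun ω => (v₁ ω, Y ω)) -
      CH p v (fun ω => (v₁ ω, (z ω, Y ω)))) + (CH p z (fun ω => (z₁ ω, Y ω)) -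
      CH p z (fun ω => (z₁ ω, (v₁ ω, Y ω)))) := by
  have e1 := tie_more hp z Y hv
  have e2 := tie_more hp v₁ Y hz
  have e3 := tie_symm hp z v₁ Y
  have e4 := tie_symm hp z₁ v₁ Y
  linarith

end tie

end Pool.OWN54
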