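import Pool.Agent.H54.OWN.Ejet

/-!
# The own path from all its jets

`path_few`: if all own jets of a coordinate (for the precision `s`) are few bits given a closed
function and `y`, then the own path to `s` digits, with the label, is few bits.
-/

set_option autoImplicit false

namespace Pool.OWN54

open Finset Real MvPolynomial
open Pool.Agent.H49.Ent Pool.Agent.H32.Dense Pool.STK Pool.KA Pool.KSAT Pool.K2S Pool.PB Pool.GEN
open Pool.S6C Pool.RCD Pool.LA91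
open Pool.OWN68
open Pool.GRD (LbP Pb_mono_pos)

variable {m J : ℕ}

/-- **All own jets are few bits**, for the precision `s`. -/
def JetA (S : PCl m) {α β γ : ∀ J : ℕ, Fam m J → Type}
    (f : ∀ (J : ℕ) (F : Fam m J), F.Ω → α J F)
    (g : ∀ (J : ℕ) (F : Fam m J), F.Ω → β J F) (y : ∀ (J : ℕ) (F : Fam m J), F.Ω → γ J F)
    (I : Finset (Fin m)) (κ : Fin m) (w p s δ : ℝ) : Prop :=
  ∃ (j₀ : ℕ) (η : ℕ → ℝ) (e : ℝ), 0 < e ∧ (∀ j, 0 ≤ η j) ∧ ∑ j ∈ range j₀, η j ≤ δ ∧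
    (∀ j < j₀, F0 S f g y (qJet m I κ j w p (s - j * w)) e (η j)) ∧
    ∀ j ≥ j₀, ∀ h : ℝ, 0 < h → F0 S f g y (qJet m I κ j w p (s - j * w)) e h

/-- The coefficients from the jets. -/
theorem cof_code (D : ℕ) : ∃ C : ℝ, 1 ≤ C ∧ ∀ {m J : ℕ}
    {F : Fam m J} {w : ℕ} {σ : ℝ} {κ : Fin m} {V : Type} {zl : LnT F → V}
    {G : V → MvPolynomial (Option (Fin m)) ℝ} {q : F.Ω → ℝ} (_ : IsLaw q)
    (_ : ∀ v, (X (some κ) - G v).totalDegree ≤ D) (_ : w ≤ J) {𝒰 : Type} (U : F.Ω → 𝒰)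
    (_ : ∀ ω ω', 0 < q ω → 0 < q ω' → U ω = U ω' → F.T ω = F.T ω' ∧
      ∀ j ≤ D, |σ * (1 / 2 ^ (w + 1)) ^ j * ojet F κ j (G (zl (slam F w ω))) ω -
        σ * (1 / 2 ^ (w + 1)) ^ j * ojet F κ j (G (zl (slam F w ω'))) ω'| ≤ 1),
    CH q (fun ω => fun j : Fin (D + 1) => ⌊jr F w σ κ zl G j (slam F w ω)⌋) U ≤
      (D + 1) * Real.log C := by
  obtain ⟨C₁, hC₁, hcof⟩ := cof_small D
  refine ⟨2 * ((⌈C₁⌉₊ + 1 : ℕ) : ℝ) + 1, ?_, ?_⟩
  · have : (0 : ℝ) ≤ ((⌈C₁⌉₊ + 1 : ℕ) : ℝ) := Nat.cast_nonneg _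
    linarith
  intro m J F w σ κ V zl G q hq hdeg hw 𝒰 U hU
  have h0 := hq.nonneg
  refine (CH_pis h0 _ U).trans ?_
  have h1 : ∀ j ∈ (univ : Finset (Fin (D + 1))),
      CH q (fun ω => (fun j : Fin (D + 1) => ⌊jr F w σ κ zl G j (slam F w ω)⌋) j) U ≤
      Real.log (2 * ((⌈C₁⌉₊ + 1 : ℕ) : ℝ) + 1) := by
    intro j _
    refine CH_pair hq _ U fun ω ω' hω hω' e => floor_sub_le ?_
    obtain ⟨hT, hu1⟩ := hU ω ω' hω hω' e
    have hu : uw F w ω' = uw F w ω := by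
      unfold uw tw
      rw [hT]
    have hEd : (jR F w σ κ zl G (slam F w ω) - jR F w σ κ zl G (slam F w ω')).natDegree ≤ D :=
      (Polynomial.natDegree_sub_le _ _).trans (max_le (natDegree_jR hdeg _) (natDegree_jR hdeg _))
    have hc : jr F w σ κ zl G j (slam F w ω) - jr F w σ κ zl G j (slam F w ω') =
        (jR F w σ κ zl G (slam F w ω) - jR F w σ κ zl G (slam F w ω')).coeff j := by
      rw [Polynomial.coeff_sub]
      rfl
    rw [hc]
    have h3 := hcof _ j (uw F w ω) 1 hEd (uw_abs F w ω) fun i _ => by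
      by_cases hiD : i ≤ D
      · rw [Polynomial.iterate_derivative_sub, Polynomial.eval_sub, jR_jet hw ω i, ← hu,
          jR_jet hw ω' i]
        exact hu1 i hiD
      · rw [Polynomial.iterate_derivative_eq_zero (by omega), Polynomial.eval_zero, abs_zero]
        exact zero_le_one
    rw [mul_one] at h3
    exact h3.trans (Nat.le_ceil _)
  refine (Finset.sum_le_sum h1).trans (le_of_eq ?_)
  rw [Finset.sum_const, Finset.card_univ, Fintype.card_fin, nsmul_eq_mul]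
  push_cast
  ring

/-- **The own path is few bits**, if all its jets are. -/
theorem path_few {S : PCl m} {C₀ : ℝ} (htm : TmC S C₀) {I : Finset (Fin m)} {κ : Fin m}
    {w a p s r δ δ' : ℝ} (hw0 : 0 ≤ w) (hwa : w ≤ a) (ha : a ≤ 1) (hr : 0 ≤ r)
    {α γ : ∀ J : ℕ, Fam m J → Type} {f : ∀ (J : ℕ) (F : Fam m J), F.Ω → α J F}
    {y : ∀ (J : ℕ) (F : Fam m J), F.Ω → γ J F}
    (hf : ∀ (J : ℕ) (F : Fam m J), ∃ φ : α J F → PtT F, ∀ ω, ptr F J ω = φ (f J F ω))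
    (hy : ∀ (J : ℕ) (F : Fam m J), ∃ φ : γ J F → ℕ, ∀ ω, F.T ω = φ (y J F ω))
    (hjet : JetA S f (vg a) y I κ w p s δ) (hδ : δ < δ') :
    ∃ e₀ : ℝ, 0 < e₀ ∧ ∀ e : ℝ, 0 < e → e ≤ e₀ → ∀ K : ℕ,
      Bas S (fun J F A => ∀ (V : Type) (z : PtT F → V) (z' : LnT F → V)
        (G : V → MvPolynomial (Option (Fin m)) ℝ),
        LbOK F I κ K ⌊e * J⌋₊ J ⌊w * J⌋₊ ⌊(r + e) * J⌋₊ ⌊(p - e) * J⌋₊ A z z' G →
        ∃ (V₁ : Type) (z₁ : F.Ω → V₁), Cl2 (f J F) (vg a J F) A z₁ ∧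
          CH (Pool.Agent.H49.Ent.cond F.p A True)
            (fun ω => ((z' (vg w J F ω), (vg w J F ω).2), fun j : Fin (K + 3) =>
              ⌊jr F ⌊w * J⌋₊ (2 ^ (s * J)) κ z' G j (vg w J F ω)⌋))
            (fun ω => (z₁ ω, y J F ω)) ≤ δ' * J) := by
  classical
  obtain ⟨j₀, η, ej, hej, hη, hsη, hj1, hj2⟩ := hjet
  refine ⟨ej, hej, fun e he hle K => ?_⟩
  obtain ⟨D, hD⟩ : ∃ D : ℕ, D = K + 2 := ⟨_, rfl⟩
  have hD1 : (0 : ℝ) < D + 1 := by positivity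
  obtain ⟨C, hC, Hc⟩ := cof_code D
  obtain ⟨d, hd⟩ : ∃ d : ℝ, d = (δ' - δ) / 2 := ⟨_, rfl⟩
  have hd0 : 0 < d := by rw [hd]; linarith
  obtain ⟨er, her⟩ : ∃ er : ℕ → ℝ, er = fun j => if j < j₀ then η j else d / (D + 1) := ⟨_, rfl⟩
  have hser : ∑ j ∈ range (D + 1), er j ≤ δ + d := by
    have h1 : ∀ j ∈ range (D + 1), er j ≤ (if j < j₀ then η j else 0) + d / (D + 1) := by
      intro j _
      rw [her]
      dsimp only
      have hd1 : 0 ≤ d / (D + 1) := by positivity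
      split_ifs
      · linarith
      · linarith
    refine (Finset.sum_le_sum h1).trans ?_
    rw [Finset.sum_add_distrib, Finset.sum_const, Finset.card_range, nsmul_eq_mul]
    have h2 : ∑ j ∈ range (D + 1), (if j < j₀ then η j else 0) ≤ ∑ j ∈ range j₀, η j := by
      rw [← Finset.sum_filter]
      refine Finset.sum_le_sum_of_subset_of_nonneg (fun j hj => ?_) fun j _ _ => hη j
      rw [Finset.mem_filter] at hj
      exact Finset.mem_range.2 hj.2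
    have h3 : ((D + 1 : ℕ) : ℝ) * (d / (D + 1)) = d := by
      push_cast
      field_simp
    rw [h3]
    linarith
  have hF : ∀ j < D + 1, F0 S f (vg a) y (qJet m I κ j w p (s - j * w)) e (er j) := by
    intro j _
    rw [her]
    dsimp only
    by_cases h2 : j < j₀
    · rw [if_pos h2]
      exact (hj1 j h2).mono hle le_rfl
    · rw [if_neg h2]
      exact (hj2 j (by omega) (d / (D + 1)) (by positivity)).mono hle le_rfl
  choose M Jm hcnt using fun j : ℕ => cnt_jet m K j (N := s - j * w) (w := w) hr he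
  obtain ⟨M', hM'⟩ : ∃ M' : ℕ, M' = K + ∑ j ∈ range (D + 1), M j := ⟨_, rfl⟩
  obtain ⟨J₁, hJ₁⟩ : ∃ J₁ : ℕ, J₁ = ∑ j ∈ range (D + 1), Jm j := ⟨_, rfl⟩
  have hlC : 0 ≤ Real.log C := Real.log_nonneg hC
  obtain ⟨J₂, hJ₂⟩ := exists_nat_ge ((D + 1) * Real.log C / d)
  refine Bas.mono (max J₁ J₂) ((Bas.all (D + 1) fun j hj => hF j hj M').and
    (Pool.GRW.tmc_bas htm one_pos)) ?_
  rintro J hJ F A ⟨HF, hA, -⟩ V z z' G hlb
  have hJ1 : J₁ ≤ J := (le_max_left _ _).trans hJ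
  have hJ2 : (J₂ : ℝ) ≤ J := by exact_mod_cast (le_max_right _ _).trans hJ
  have hJ0 : (0 : ℝ) ≤ J := Nat.cast_nonneg J
  have f1 : (D + 1) * Real.log C ≤ d * J := by
    have : (D + 1) * Real.log C / d ≤ J := hJ₂.trans hJ2
    rw [div_le_iff₀ hd0] at this
    linarith
  obtain ⟨W, hW⟩ : ∃ W : ℕ, W = ⌊w * J⌋₊ := ⟨_, rfl⟩
  have hWJ : W ≤ J := by
    rw [hW]
    refine Nat.floor_le_of_le ?_
    have : w * J ≤ 1 * J := mul_le_mul_of_nonneg_right (hwa.trans ha) hJ0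
    linarith
  obtain ⟨σ, hσ⟩ : ∃ σ : ℝ, σ = 2 ^ (s * J) := ⟨_, rfl⟩
  have hσ0 : 0 < σ := by
    rw [hσ]
    exact Real.rpow_pos_of_pos (by norm_num) _
  obtain ⟨q', hq'⟩ : ∃ q' : F.Ω → ℝ, q' = Pool.Agent.H49.Ent.cond F.p A True := ⟨_, rfl⟩
  have hq'l : IsLaw q' := by
    rw [hq']
    exact isLaw_cond F.isLaw hA
  have h0 := hq'l.nonneg
  rw [← hq', ← hσ, ← hW]
  rw [← hW] at hlb
  have hvg : ∀ ω, vg w J F ω = slam F W ω := fun ω => by rw [hW]; rfl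
  simp only [hvg]
  have hdeg : ∀ v, (X (some κ) - G v).totalDegree ≤ D := fun v => by
    refine (MvPolynomial.totalDegree_sub _ _).trans (max_le ?_ ?_)
    · exact (totalDegree_X _).le.trans (by omega)
    · exact (hlb.deg v).trans (by omega)
  obtain ⟨U, hU⟩ : ∃ U : F.Ω → Fin (D + 1) → ℤ, U = fun ω (j : Fin (D + 1)) =>
    ⌊(2 : ℝ) ^ ((s - (j : ℕ) * w) * J) * ojet F κ (j : ℕ) (G (z' (slam F W ω))) ω⌋ := ⟨_, rfl⟩
  have hz : ∀ j : Fin (D + 1), ∃ (V₂ : Type) (z₂ : F.Ω → V₂), Cl2 (f J F) (vg a J F) A z₂ ∧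
      CH q' (fun ω => U ω j) (fun ω => (z₂ ω, y J F ω)) ≤ er j * J := by
    intro j
    have h1 := HF j j.2 (fun ω => U ω j) ⟨?_, V, z, z', G, ?_, fun ω _ => by rw [hU, hW]⟩
    · rw [← hq'] at h1
      exact h1
    · have hMj : M j ≤ M' := by
        rw [hM']
        have := Finset.single_le_sum (f := M) (fun i _ => Nat.zero_le _)
          (Finset.mem_range.2 j.2)
        omega
      have hJj : Jm j ≤ J := by
        have := Finset.single_le_sum (f := Jm) (fun i _ => Nat.zero_le _)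
          (Finset.mem_range.2 j.2)
        omega
      have h2 := hcnt j J hJj F I κ _ A V z z' G (by rw [← hW]; exact hlb)
      rw [← hW] at h2
      rw [hU]
      refine h2.trans (Real.exp_le_exp.2 (mul_le_mul_of_nonneg_right ?_ hJ0))
      exact_mod_cast hMj
    · rw [← hW]
      exact (LbP.of hlb).mono (Finset.Subset.refl _) (by omega) le_rfl
  choose Vz zz hzz hCz using hz
  obtain ⟨Y, hY⟩ : ∃ Y : F.Ω → ((V × (F.ζ × ℕ)) × (∀ j, Vz j)) × γ J F, Y = fun ω =>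
    (((z' (slam F W ω), (slam F W ω).2), fun j => zz j ω), y J F ω) := ⟨_, rfl⟩
  have hYU : CH q' U Y ≤ (δ + d) * J := by
    refine (CH_pis h0 U Y).trans ?_
    have h1 : ∀ j ∈ (univ : Finset (Fin (D + 1))), CH q' (fun ω => U ω j) Y ≤ er j * J := by
      intro j _
      refine le_trans (CH_mono_cond h0 fun ω ω' _ _ hh => ?_) (hCz j)
      rw [hY] at hh
      simp only [Prod.mk.injEq] at hh ⊢
      exact ⟨congrFun hh.1.2 j, hh.2⟩
    refine (Finset.sum_le_sum h1).trans ?_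
    rw [← Finset.sum_mul, Fin.sum_univ_eq_sum_range er (D + 1)]
    exact mul_le_mul_of_nonneg_right hser hJ0
  have hcode : CH q' (fun ω => fun j : Fin (D + 1) => ⌊jr F W σ κ z' G j (slam F W ω)⌋)
      (fun ω => (U ω, Y ω)) ≤ (D + 1) * Real.log C := by
    refine Hc hq'l hdeg hWJ _ fun ω ω' _ _ e => ?_
    obtain ⟨e1, e2⟩ := Prod.ext_iff.mp e
    obtain ⟨φ, hφ⟩ := hy J F
    have e3 : F.T ω = F.T ω' := by
      rw [hφ, hφ]
      rw [hY] at e2
      exact congrArg φ (Prod.ext_iff.mp e2).2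
    refine ⟨e3, fun j hjD => ?_⟩
    have e4 := congrFun e1 ⟨j, by omega⟩
    rw [hU] at e4
    refine fl_scale (by positivity) ?_ (Real.rpow_pos_of_pos (by norm_num) _) e4
    rw [one_mul, hσ, hW]
    exact (scale_le hw0 J j).1
  obtain ⟨φf, hφf⟩ := hf J F
  obtain ⟨φg, hφg⟩ := vg_mono hwa ha J F
  refine ⟨_, fun ω => ((z' (slam F W ω), (slam F W ω).2), fun j => zz j ω),
    Cl2.join ⟨?_, ?_⟩ (Cl2.pi hzz), ?_⟩
  · refine ⟨fun x => (z (φf x), ((φf x).2.2, (φf x).2.1 / 2 ^ (J - W))), fun ω hω => ?_⟩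
    dsimp only
    rw [← hφf ω, hlb.cls ω hω]
    rfl
  · refine ⟨fun x => (z' (φg x), (φg x).2), fun ω _ => ?_⟩
    dsimp only
    rw [← hφg ω, hvg ω]
  · have s1 := CH_le_add h0 (fun ω => ((z' (slam F W ω), (slam F W ω).2),
      fun j : Fin (K + 3) => ⌊jr F W σ κ z' G j (slam F W ω)⌋)) U Y
    have s2 : CH q' (fun ω => ((z' (slam F W ω), (slam F W ω).2),
        fun j : Fin (K + 3) => ⌊jr F W σ κ z' G j (slam F W ω)⌋))
        (fun ω => (U ω, Y ω)) ≤ (D + 1) * Real.log C := by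
      refine le_trans (CH_mono_left h0 fun ω ω' _ _ e => ?_) hcode
      have e1 := (Prod.ext_iff.mp e).1
      have e2 := (Prod.ext_iff.mp (Prod.ext_iff.mp e).2).2
      rw [hY] at e2
      simp only [Prod.mk.injEq] at e2
      subst hD
      simp only [Prod.mk.injEq]
      exact ⟨⟨e2.1.1.1, e2.1.1.2⟩, e1⟩
    have s3 : CH q' (fun ω => ((z' (slam F W ω), (slam F W ω).2),
        fun j : Fin (K + 3) => ⌊jr F W σ κ z' G j (slam F W ω)⌋)) Y ≤ δ' * J := by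
      have e6 : (δ + d) * J + d * J = δ' * J := by
        rw [hd]
        ring
      linarith only [s1, s2, hYU, f1, e6]
    rw [hY] at s3
    exact s3

end Pool.OWN54
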