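import Pool.Agent.H54.OWN.Pfew

/-!
# The own path of a coordinate which is not full given the height of another coordinate

`slow2`: `κ`, `v` are two coordinates over `I` (`y` knows the path over `I`), the rows of `κ` given
the exact point over `I` and the exact position of `v` are not full, and the own path of `v` to `s'`
digits is natural at the window `a'`. Then the own path of `κ` to `p + q` digits is few bits given
the ball `a'`, where `a ≤ a'` is the window with `P_κ(a) = p + q`, `P_v(a) = s ≤ s'`. No hypothesis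
on the slopes of `κ` and `v`.
-/

set_option autoImplicit false

namespace Pool.OWN54

open Finset Real MvPolynomial
open Pool.Agent.H49.Ent Pool.Agent.H32.Dense Pool.STK Pool.KA Pool.KSAT Pool.K2S Pool.PB Pool.GEN
open Pool.S6C Pool.RCD Pool.LA91
open Pool.OWN68
open Pool.GRD (LbP Pb_mono_pos)
open Pool.UNJ (ceI Tub)
open Pool.BFL (Pb)

variable {m J : ℕ}

section two

variable {α γ : ∀ J : ℕ, Fam m J → Type} {f : ∀ (J : ℕ) (F : Fam m J), F.Ω → α J F}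
  {y : ∀ (J : ℕ) (F : Fam m J), F.Ω → γ J F}

/-- Natural jets: two windows. -/
theorem f0_two {S : PCl m} {C₀ : ℝ} (htm : TmC S C₀) {I : Finset (Fin m)} {κ : Fin m} (j : ℕ)
    {w a p pa r lam N ρ : ℝ} (hr : 0 ≤ r) (hw0 : 0 ≤ w) (hwa : w ≤ a) (ha : a < w + lam)
    (hwl : w + lam ≤ 1) (hκw : Att S I κ w p r) (hκa : Att S I κ a pa r)
    (hfw : ∀ u : ℝ, w < u → u < 1 → Ful S I w u) (hfa : ∀ u : ℝ, a < u → u < 1 → Ful S I a u)
    (hf : ∀ (J : ℕ) (F : Fam m J), ∃ φ : α J F → PtT F, ∀ ω, ptr F J ω = φ (f J F ω))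
    (hy : Kn I (w + lam) lam y) (hρ : 0 < ρ) (h1 : N + j * a + ρ ≤ pa)
    (h2 : N + j * a + ρ ≤ p + (w + lam - a)) {h : ℝ} (hh : 0 < h) :
    F0 S f (vg a) y (qJet m I κ j w p N) (ρ / 4) h := by
  have key := chain (y := y) htm (I := I) (κ := κ) (j := j) (a := a) (r := r) (p₀ := w + lam)
    (lam := lam) (N := N) (ρ := ρ) hr (by linarith) ha hwl hf hy hρ
    (fun i => if i = 0 then a else w) (fun i => if i = 0 then pa else p) 1
    (fun i _ => by split_ifs <;> linarith)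
    (fun i _ => by split_ifs <;> linarith)
    (fun i _ => by split_ifs <;> assumption)
    (fun i _ => by split_ifs <;> assumption)
    (by simp only [if_true]; exact h1)
    (fun i hi => by
      have hi0 : i = 0 := by omega
      subst hi0
      simp only [if_true, zero_add, one_ne_zero, if_false]
      rw [max_eq_left hwa]
      have e1 : min lam (w + lam - a) = w + lam - a := min_eq_right (by linarith)
      rw [e1]
      rcases min_cases pa p with ⟨e, -⟩ | ⟨e, -⟩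
      · rw [e]
        linarith
      · rw [e]
        exact h2) h hh
  simpa using key

/-- The own height, without the direction: two windows. -/
theorem f0_two0 {S : PCl m} {C₀ : ℝ} (htm : TmC S C₀) {I : Finset (Fin m)} {κ : Fin m}
    {w a p pa r U N ρ : ℝ} (hr : 0 ≤ r) (hw0 : 0 ≤ w) (hwa : w ≤ a) (ha : a < U)
    (hU : U ≤ 1) (hκw : Att S I κ w p r) (hκa : Att S I κ a pa r)
    (hfw : ∀ u : ℝ, w < u → u < 1 → Ful S I w u) (hfa : ∀ u : ℝ, a < u → u < 1 → Ful S I a u)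
    (hf : ∀ (J : ℕ) (F : Fam m J), ∃ φ : α J F → PtT F, ∀ ω, ptr F J ω = φ (f J F ω))
    (hy : Kn0 I U y) (hρ : 0 < ρ) (h1 : N + ρ ≤ pa)
    (h2 : N + ρ ≤ p + (U - a)) {h : ℝ} (hh : 0 < h) :
    F0 S f (vg a) y (qJet m I κ 0 w p N) (ρ / 4) h := by
  have key := chain0 (y := y) htm (I := I) (κ := κ) (a := a) (r := r) (p₀ := U)
    (N := N) (ρ := ρ) hr (by linarith) ha hU hf hy hρ
    (fun i => if i = 0 then a else w) (fun i => if i = 0 then pa else p) 1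
    (fun i _ => by split_ifs <;> linarith)
    (fun i _ => by split_ifs <;> linarith)
    (fun i _ => by split_ifs <;> assumption)
    (fun i _ => by split_ifs <;> assumption)
    (by simp only [if_true]; exact h1)
    (fun i hi => by
      have hi0 : i = 0 := by omega
      subst hi0
      simp only [if_true, zero_add, one_ne_zero, if_false]
      rw [max_eq_left hwa]
      rcases min_cases pa p with ⟨e, -⟩ | ⟨e, -⟩
      · rw [e]
        linarith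
      · rw [e]
        exact h2) h hh
  simpa using key

end two

/-- The code of a line: the path over `I`, the label of `v` and the own path of `v`. -/
noncomputable def vcode (F : Fam m J) (I : Finset (Fin m)) (W n : ℕ) (σ : ℝ) (v : Fin m)
    {Vv : Type} (zv' : LnT F → Vv) (Gv : Vv → MvPolynomial (Option (Fin m)) ℝ) (K : ℕ)
    (x : LnT F) : (Fin m → ℤ × ℤ) × ((Vv × (F.ζ × ℕ)) × (Fin (K + 3) → ℤ)) :=
  (cV0 I W n F x, ((zv' x, x.2), fun j => ⌊jr F W σ v zv' Gv j x⌋))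

/-- The contexts which know the path over `I` and the own path of `v`. -/
def PsV (I : Finset (Fin m)) (v : Fin m) (w lam pv rv s ev : ℝ) (Kv : ℕ) :
    ∀ (J : ℕ) (F : Fam m J), (F.Ω → Prop) → ∀ C : Type, (LnT F → C) → Prop :=
  fun J F A _C c => ∃ (Vv : Type) (zv : PtT F → Vv) (zv' : LnT F → Vv)
    (Gv : Vv → MvPolynomial (Option (Fin m)) ℝ),
    LbOK F I v Kv ⌊ev * J⌋₊ J ⌊w * J⌋₊ ⌊(rv + ev) * J⌋₊ ⌊(pv - ev) * J⌋₊ A zv zv' Gv ∧
    ∀ x x' : LnT F, c x = c x' ↔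
      vcode F I ⌊w * J⌋₊ ⌊(w + lam) * J⌋₊ (2 ^ (s * J)) v zv' Gv Kv x =
        vcode F I ⌊w * J⌋₊ ⌊(w + lam) * J⌋₊ (2 ^ (s * J)) v zv' Gv Kv x'

theorem PsV.sub {I : Finset (Fin m)} {v : Fin m} {w lam pv rv s ev : ℝ} {Kv : ℕ} {F : Fam m J}
    {A B : F.Ω → Prop} {C : Type} {c : LnT F → C} (h : PsV I v w lam pv rv s ev Kv J F A C c)
    (hB : Sub B A) : PsV I v w lam pv rv s ev Kv J F B C c := by
  obtain ⟨Vv, zv, zv', Gv, h1, h2⟩ := h
  exact ⟨Vv, zv, zv', Gv, h1.sub hB, h2⟩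

/-- **The rows of `κ` are not full** given a context of `PsV`. -/
theorem nfc_of {S : PCl m} {C₀ : ℝ} (htm : TmC S C₀) {I : Finset (Fin m)} {κ v : Fin m}
    {w p q r h δ δ' pv rv s' lam ev : ℝ} (hw0 : 0 ≤ w) (hw1 : w ≤ 1) (Kv : ℕ)
    (hnf : ∃ e₀ : ℝ, 0 < e₀ ∧ ∀ e : ℝ, 0 < e → e ≤ e₀ → ∀ (K : ℕ) (x : ℝ), 0 ≤ x → x ≤ q →
      Bas S (fun J F A => ∀ (V : Type) (z : PtT F → V) (z' : LnT F → V)
        (G : V → MvPolynomial (Option (Fin m)) ℝ),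
        LbOK F I κ K ⌊e * J⌋₊ J ⌊w * J⌋₊ ⌊(r + e) * J⌋₊ ⌊(p - e) * J⌋₊ A z z' G →
        ∀ (Vv : Type) (zv : PtT F → Vv) (zv' : LnT F → Vv)
        (Gv : Vv → MvPolynomial (Option (Fin m)) ℝ),
        LbOK F I v Kv ⌊ev * J⌋₊ J ⌊w * J⌋₊ ⌊(rv + ev) * J⌋₊ ⌊(pv - ev) * J⌋₊ A zv zv' Gv →
        CH (Pool.Agent.H49.Ent.cond F.p A True)
          (fun ω => ⌊(2 : ℝ) ^ ((p + q) * J) * ojet F κ 0 (G (z' (slam F ⌊w * J⌋₊ ω))) ω⌋)
          (fun ω => (⌊(2 : ℝ) ^ ((p + x) * J) * ojet F κ 0 (G (z' (slam F ⌊w * J⌋₊ ω))) ω⌋,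
            (z' (slam F ⌊w * J⌋₊ ω), ((zv' (slam F ⌊w * J⌋₊ ω),
              ⌊(2 : ℝ) ^ (s' * J) * ojet F v 0 (Gv (zv' (slam F ⌊w * J⌋₊ ω))) ω⌋),
              (bI I (w + lam) J F ω, F.W ω))))) ≤
          ((1 - h) * (q - x) * Real.log 2 + δ) * J)) (hδ : δ < δ') :
    NfC S I κ w p q r h δ' (PsV I v w lam pv rv s' ev Kv) := by
  obtain ⟨e₀, he₀, hnf⟩ := hnf
  refine ⟨e₀, he₀, fun e he hle K x hx0 hxq => ?_⟩
  obtain ⟨M, hM⟩ := jet_path (Kv + 2) 0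
  have hl : 0 ≤ Real.log (2 * M + 1) := Real.log_nonneg (by
    have : (0 : ℝ) ≤ M := Nat.cast_nonneg _
    linarith)
  have l7 : 0 ≤ Real.log 7 := Real.log_nonneg (by norm_num)
  obtain ⟨J₁, hJ₁⟩ := exists_nat_ge ((Real.log (2 * M + 1) + m * Real.log 7) / (δ' - δ))
  refine Bas.mono J₁ ((hnf e he hle K x hx0 hxq).and (Pool.GRW.tmc_bas htm one_pos)) ?_
  rintro J hJ F A ⟨H, hA, -⟩ V z z' G hlb C c ⟨Vv, zv, zv', Gv, hlv, hcc⟩
  have hJ0 : (0 : ℝ) ≤ J := Nat.cast_nonneg J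
  have hJ1 : (J₁ : ℝ) ≤ J := by exact_mod_cast hJ
  have f1 : Real.log (2 * M + 1) + m * Real.log 7 ≤ (δ' - δ) * J := by
    have : (Real.log (2 * M + 1) + m * Real.log 7) / (δ' - δ) ≤ J := hJ₁.trans hJ1
    rw [div_le_iff₀ (by linarith)] at this
    linarith
  have hwJ : ⌊w * J⌋₊ ≤ J := floor_le hw1 J
  obtain ⟨q', hq'⟩ : ∃ q' : F.Ω → ℝ, q' = Pool.Agent.H49.Ent.cond F.p A True := ⟨_, rfl⟩
  have hq'l : IsLaw q' := by
    rw [hq']
    exact isLaw_cond F.isLaw hA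
  have h0 := hq'l.nonneg
  have H1 := H V z z' G hlb Vv zv zv' Gv hlv
  rw [← hq'] at H1 ⊢
  obtain ⟨Hn, hHn⟩ : ∃ Hn : F.Ω → ℤ, Hn = fun ω => ⌊(2 : ℝ) ^ ((p + q) * J) *
    ojet F κ 0 (G (z' (slam F ⌊w * J⌋₊ ω))) ω⌋ := ⟨_, rfl⟩
  obtain ⟨Rx, hRx⟩ : ∃ Rx : F.Ω → ℤ, Rx = fun ω => ⌊(2 : ℝ) ^ ((p + x) * J) *
    ojet F κ 0 (G (z' (slam F ⌊w * J⌋₊ ω))) ω⌋ := ⟨_, rfl⟩
  obtain ⟨Hc, hHc⟩ : ∃ Hc : F.Ω → ℤ, Hc = fun ω => ⌊(2 : ℝ) ^ (s' * J) *
    ojet F v 0 (Gv (zv' (slam F ⌊w * J⌋₊ ω))) ω⌋ := ⟨_, rfl⟩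
  obtain ⟨Y, hY⟩ : ∃ Y : F.Ω → ℤ × (V × (C × (ℕ × F.ζ))), Y = fun ω =>
    (Rx ω, (z' (slam F ⌊w * J⌋₊ ω), (c (slam F ⌊w * J⌋₊ ω), F.W ω))) := ⟨_, rfl⟩
  have hcd : ∀ ω ω', Y ω = Y ω' → Rx ω = Rx ω' ∧
      z' (slam F ⌊w * J⌋₊ ω) = z' (slam F ⌊w * J⌋₊ ω') ∧ F.W ω = F.W ω' ∧
      cV0 I ⌊w * J⌋₊ ⌊(w + lam) * J⌋₊ F (slam F ⌊w * J⌋₊ ω) =
        cV0 I ⌊w * J⌋₊ ⌊(w + lam) * J⌋₊ F (slam F ⌊w * J⌋₊ ω') ∧
      zv' (slam F ⌊w * J⌋₊ ω) = zv' (slam F ⌊w * J⌋₊ ω') ∧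
      (fun j : Fin (Kv + 3) => ⌊jr F ⌊w * J⌋₊ (2 ^ (s' * J)) v zv' Gv j (slam F ⌊w * J⌋₊ ω)⌋) =
      fun j : Fin (Kv + 3) =>
        ⌊jr F ⌊w * J⌋₊ (2 ^ (s' * J)) v zv' Gv j (slam F ⌊w * J⌋₊ ω')⌋ := by
    intro ω ω' e
    rw [hY] at e
    simp only [Prod.mk.injEq] at e
    obtain ⟨e1, e2, e3, e4⟩ := e
    have e5 := (hcc _ _).1 e3
    unfold vcode at e5
    simp only [Prod.mk.injEq] at e5
    exact ⟨e1, e2, e4, e5.1, e5.2.1.1, e5.2.2⟩
  -- the height of `v`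
  have c1 : CH q' Hc Y ≤ Real.log (2 * M + 1) := by
    have h2 := hM hw0 hwJ (s := s') (κ := v) (z' := zv') (G := Gv) (fun u => by
      refine (MvPolynomial.totalDegree_sub _ _).trans (max_le ?_ ?_)
      · exact (totalDegree_X _).le.trans (by omega)
      · exact (hlv.deg u).trans (by omega)) hq'l Y fun ω ω' _ _ e => by
        obtain ⟨-, -, e4, -, -, e6⟩ := hcd ω ω' e
        exact ⟨(Prod.ext_iff.mp e4).1, fun i hi => congrFun e6 ⟨i, by omega⟩⟩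
    rw [Nat.cast_zero, zero_mul, sub_zero] at h2
    rw [hHc]
    exact h2
  -- the point over `I`
  have c2 : CH q' (bI I (w + lam) J F) Y ≤ m * Real.log 7 := by
    refine le_trans (CH_mono_cond h0 fun ω ω' _ _ e => ?_)
      (cV0_pos hq'l I hwJ ⌊(w + lam) * J⌋₊)
    obtain ⟨-, -, e4, e5, -, -⟩ := hcd ω ω' e
    exact Prod.ext e5 e4
  have c3 : CH q' (fun ω => (Hc ω, bI I (w + lam) J F ω)) Y ≤
      Real.log (2 * M + 1) + m * Real.log 7 :=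
    (CH_subadd h0 _ _ _).trans (add_le_add c1 c2)
  have c4 := CH_le_add h0 Hn (fun ω => (Hc ω, bI I (w + lam) J F ω)) Y
  have c5 : CH q' Hn (fun ω => ((Hc ω, bI I (w + lam) J F ω), Y ω)) ≤
      CH q' Hn (fun ω => (Rx ω, (z' (slam F ⌊w * J⌋₊ ω), ((zv' (slam F ⌊w * J⌋₊ ω), Hc ω),
        (bI I (w + lam) J F ω, F.W ω))))) := by
    refine CH_mono_cond h0 fun ω ω' _ _ e => ?_
    simp only [Prod.mk.injEq] at e ⊢
    obtain ⟨⟨e1, e2⟩, e3⟩ := e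
    obtain ⟨g1, g2, g3, -, g5, -⟩ := hcd ω ω' e3
    exact ⟨g1, g2, ⟨g5, e1⟩, e2, g3⟩
  have c6 : CH q' Hn (fun ω => (Rx ω, (z' (slam F ⌊w * J⌋₊ ω), ((zv' (slam F ⌊w * J⌋₊ ω), Hc ω),
        (bI I (w + lam) J F ω, F.W ω))))) ≤ ((1 - h) * (q - x) * Real.log 2 + δ) * J := by
    rw [hHn, hRx, hHc]
    exact H1
  have goal1 : CH q' Hn Y ≤ ((1 - h) * (q - x) * Real.log 2 + δ') * J := by
    have e9 : ((1 - h) * (q - x) * Real.log 2 + δ') * J =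
        ((1 - h) * (q - x) * Real.log 2 + δ) * J + (δ' - δ) * J := by ring
    rw [e9]
    linarith only [c3, c4, c5, c6, f1]
  rw [hHn, hY, hRx] at goal1
  exact goal1

/-- **The numbers of the two-coordinate theorem.** -/
structure Win2 (w a a' p q pa pa' pv s pva s' pva' lam r rv ρ : ℝ) : Prop where
  r0 : 0 ≤ r
  rw : r < w
  rv0 : 0 ≤ rv
  rvw : rv < w
  wa : w ≤ a
  aa : a ≤ a'
  al : a' < w + lam
  l1 : w + lam < 1
  p0 : 0 ≤ p
  q0 : 0 < q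
  ρ0 : 0 < ρ
  ss : s ≤ s'
  k1 : p + q + ρ ≤ pa
  k2 : p + q + ρ ≤ pa'
  k3 : p + q + ρ ≤ w + lam
  k4 : q + ρ + (a' - w) ≤ lam
  v1 : s + ρ ≤ pva
  v2 : s' + ρ + (a' - w) ≤ pva'
  v3 : s' + ρ + 2 * (a' - w) ≤ pv + lam
  v4 : s' + ρ ≤ w + lam

/-- **The own path of `κ` is few bits given the ball**, with the own path of `v`. -/
theorem slow2_path {h : ℝ} (hh : 0 < h) (hh1 : h ≤ 1) {ε : ℝ} (hε : 0 < ε) : ∃ δ : ℝ, 0 < δ ∧
    ∀ {m : ℕ} {S : PCl m} {C₀ : ℝ} (_ : TmC S C₀) {I : Finset (Fin m)} {κ v : Fin m}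
    {w a a' p q pa pa' pv s pva s' pva' lam r rv ρ : ℝ}
    (_ : Win2 w a a' p q pa pa' pv s pva s' pva' lam r rv ρ)
    {α γ : ∀ J : ℕ, Fam m J → Type} {f : ∀ (J : ℕ) (F : Fam m J), F.Ω → α J F}
    {y : ∀ (J : ℕ) (F : Fam m J), F.Ω → γ J F}
    (_ : ∀ (J : ℕ) (F : Fam m J), ∃ φ : α J F → PtT F, ∀ ω, ptr F J ω = φ (f J F ω))
    (_ : Kn I (w + lam) lam y),
    Att S I κ w p r → Att S I κ a pa r → Att S I κ a' pa' r →
    Att S I v w pv rv → Att S I v a pva rv → Att S I v a' pva' rv →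
    (∀ b : ℝ, w ≤ b → b ≤ a' → ∀ u : ℝ, b < u → u < 1 → Ful S I b u) →
    RawN S (insert v I) κ p q h (δ * q) → FulVe S I v a s (δ * q) →
    ∃ e₀ : ℝ, 0 < e₀ ∧ ∀ ev : ℝ, 0 < ev → ev ≤ e₀ → ∀ Kv : ℕ, ∃ e₁ : ℝ, 0 < e₁ ∧
      ∀ e : ℝ, 0 < e → e ≤ e₁ → ∀ K : ℕ,
      Bas S (fun J F A => ∀ (V : Type) (z : PtT F → V) (z' : LnT F → V)
        (G : V → MvPolynomial (Option (Fin m)) ℝ),
        LbOK F I κ K ⌊e * J⌋₊ J ⌊w * J⌋₊ ⌊(r + e) * J⌋₊ ⌊(p - e) * J⌋₊ A z z' G →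
        ∀ (Vv : Type) (zv : PtT F → Vv) (zv' : LnT F → Vv)
        (Gv : Vv → MvPolynomial (Option (Fin m)) ℝ),
        LbOK F I v Kv ⌊ev * J⌋₊ J ⌊w * J⌋₊ ⌊(rv + ev) * J⌋₊ ⌊(pv - ev) * J⌋₊ A zv zv' Gv →
        ∃ (V₁ : Type) (z₁ : F.Ω → V₁), Cl2 (f J F) (vg a' J F) A z₁ ∧
          CH (Pool.Agent.H49.Ent.cond F.p A True)
            (fun ω => (((z' (vg w J F ω), (vg w J F ω).2),
              fun j : Fin (K + 3) => ⌊jr F ⌊w * J⌋₊ (2 ^ ((p + q) * J)) κ z' G j (vg w J F ω)⌋),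
              vcode F I ⌊w * J⌋₊ ⌊(w + lam) * J⌋₊ (2 ^ (s' * J)) v zv' Gv Kv (vg w J F ω)))
            (fun ω => (z₁ ω, y J F ω)) ≤ ε * q * J) := by
  classical
  obtain ⟨δ₀, hδ₀, Hp⟩ := path_ctx (k := 1) (Or.inl rfl) hh hh1 (ε := ε) hε
  obtain ⟨δ, hδ⟩ : ∃ δ : ℝ, δ = δ₀ / 16 := ⟨_, rfl⟩
  have hδ0 : 0 < δ := by rw [hδ]; positivity
  refine ⟨δ, hδ0, ?_⟩
  intro m S C₀ htm I κ v w a a' p q pa pa' pv s pva s' pva' lam r rv ρ W α γ f y hf hy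
    hκw hκa hκa' hvw hva hva' hful hraw hfv
  obtain ⟨r0, rw', rv0, rvw, wa, aa, al, l1, p0, q0, ρ0, ss, k1, k2, k3, k4, v1, v2, v3, v4⟩ := W
  have hw0 : 0 < w := by linarith
  have hδq : 0 < δ * q := by positivity
  have hlam : 0 < lam := by linarith
  have hfw := hful w le_rfl (by linarith)
  have hfa := hful a wa aa
  have hfa' := hful a' (wa.trans aa) le_rfl
  -- the rows
  have hh0 := f0_two0 (y := fun J F ω => (bI I (w + lam) J F ω, F.W ω)) htm (I := I) (κ := κ)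
    (a := a) (U := w + lam) (N := p + q) (f := fun J F => ptr F J) r0 hw0.le wa (by linarith)
    l1.le hκw hκa hfw hfa (fun J F => ⟨id, fun _ => rfl⟩) (kn0_bI I (w + lam)) ρ0 k1
    (by linarith) hδq
  have hv0 := f0_two0 (y := fun J F ω => (bI I (w + lam) J F ω, F.W ω)) htm (I := I) (κ := v)
    (a := a) (U := w + lam) (N := s) (f := fun J F => ptr F J) rv0 hw0.le wa (by linarith)
    l1.le hvw hva hfw hfa (fun J F => ⟨id, fun _ => rfl⟩) (kn0_bI I (w + lam)) ρ0 v1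
    (by linarith) hδq
  have hnfv := nfv_of (δ := 5 * (δ * q)) (s' := s') htm wa (by linarith) p0 q0.le (by linarith)
    r0 (by linarith) rv0 (by linarith) l1.le ss (by linarith) hraw (hfa _ (by linarith) l1) hfv
    (by positivity : 0 < ρ / 4) hh0 hv0 (by linarith)
  obtain ⟨e₂, he₂, hnfv⟩ := hnfv
  -- the path of `v`
  have hJv : JetA S f (vg a') y I v w pv s' (2 * (δ * q)) := by
    refine ⟨2, fun _ => δ * q, ρ / 4, by positivity, fun _ => hδq.le, ?_, ?_, ?_⟩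
    · rw [Finset.sum_const, Finset.card_range, nsmul_eq_mul]
      norm_num
    · intro j hj
      refine f0_two (a := a') htm j rv0 hw0.le (wa.trans aa) al l1.le hvw hva' hfw hfa' hf hy ρ0
        ?_ ?_ hδq
      · interval_cases j
        · norm_num
          linarith
        · norm_num
          linarith
      · interval_cases j
        · norm_num
          linarith
        · norm_num
          linarith
    · intro j hj h' hh'
      exact (f0_E (a := a') htm hj rv0 rvw (wa.trans aa) (by linarith) hlam l1.le hvw hfw hf hy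
        ρ0 (by linarith) (by linarith) hh')
  obtain ⟨e₃, he₃, hpv⟩ := path_few htm hw0.le (wa.trans aa) (by linarith) rv0 hf
    (fun J F => by
      obtain ⟨φ, hφ⟩ := hy J F
      exact ⟨fun x => (φ x).1, fun ω => by
      show F.T ω = (φ (y J F ω)).1
      rw [hφ]⟩) hJv (δ' := 3 * (δ * q)) (by linarith)
  -- the jets of `κ`
  have hJκ : JetH S f (vg a') y I κ 1 w p q (δ₀ * q) := by
    refine ⟨2, fun _ => δ * q, ρ / 4, by positivity, fun _ => hδq.le, ?_, ?_, ?_⟩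
    · rw [Finset.sum_const, Finset.card_range, nsmul_eq_mul, hδ]
      have : 0 < δ₀ * q := by positivity
      push_cast
      linarith
    · intro j hj hj1
      have hj0 : j = 0 := by omega
      subst hj0
      refine f0_two (a := a') htm 0 r0 hw0.le (wa.trans aa) al l1.le hκw hκa' hfw hfa' hf hy ρ0
        ?_ ?_ hδq
      · push_cast
        linarith
      · push_cast
        linarith
    · intro j hj hj1 h' hh'
      exact (f0_E (a := a') htm hj r0 rw' (wa.trans aa) (by linarith) hlam l1.le hκw hfw hf hy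
        ρ0 (by linarith) (by linarith) hh')
  refine ⟨min e₂ e₃, lt_min he₂ he₃, fun ev hev hevle Kv => ?_⟩
  have hnc : NfC S I κ w p q r h (δ₀ * q) (PsV I v w lam pv rv s' ev Kv) := by
    refine nfc_of htm hw0.le (by linarith) Kv ⟨e₂, he₂, fun e he hle K x hx0 hxq =>
      Bas.mono 0 (hnfv e he hle ev hev (hevle.trans (min_le_left _ _)) K Kv x hx0 hxq) ?_⟩
      (δ := 5 * (δ * q)) (by
        rw [hδ]
        have : 0 < δ₀ * q := by positivity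
        linarith)
    rintro J - F A h1
    exact h1
  have hyT : ∀ (J : ℕ) (F : Fam m J), ∃ φ : γ J F → ℕ, ∀ ω, F.T ω = φ (y J F ω) := fun J F => by
    obtain ⟨φ, hφ⟩ := hy J F
    exact ⟨fun x => (φ x).1, fun ω => by
      show F.T ω = (φ (y J F ω)).1
      rw [hφ]⟩
  have l7 : 0 ≤ Real.log 7 := Real.log_nonneg (by norm_num)
  -- the context
  have hctx : Bas S (fun J F A => ∀ (C : Type) (c : LnT F → C),
      PsV I v w lam pv rv s' ev Kv J F A C c →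
      ∃ (V : Type) (z : F.Ω → V), Cl2 (f J F) (vg a' J F) A z ∧
      CH (Pool.Agent.H49.Ent.cond F.p A True) (fun ω => c (vg w J F ω))
        (fun ω => (z ω, y J F ω)) ≤ δ₀ * q * J) := by
    obtain ⟨J₁, hJ₁⟩ := exists_nat_ge (m * (2 * Real.log 7) / (δ * q))
    refine Bas.mono J₁ ((hpv ev hev (hevle.trans (min_le_right _ _)) Kv).and
      (Pool.GRW.tmc_bas htm one_pos)) ?_
    rintro J hJ F A ⟨H1, hA, -⟩ C c ⟨Vv, zv, zv', Gv, hlv, hcc⟩
    obtain ⟨V₁, z₁, hz₁, h1⟩ := H1 Vv zv zv' Gv hlv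
    refine ⟨V₁, z₁, hz₁, ?_⟩
    have hJ0 : (0 : ℝ) ≤ J := Nat.cast_nonneg J
    have hJ1 : (J₁ : ℝ) ≤ J := by exact_mod_cast hJ
    have f1 : m * (2 * Real.log 7) ≤ δ * q * J := by
      have : m * (2 * Real.log 7) / (δ * q) ≤ J := hJ₁.trans hJ1
      rw [div_le_iff₀ (by positivity)] at this
      linarith
    have hcl := isLaw_cond F.isLaw hA
    have h0 := hcl.nonneg
    have hwJ : ⌊w * J⌋₊ ≤ J := floor_le (by linarith) J
    have hn : ⌊(w + lam) * J⌋₊ ≤ ⌊w * J⌋₊ + 1 + ⌊lam * J⌋₊ := by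
      refine Nat.lt_succ_iff.mp ?_
      refine (Nat.floor_lt (by positivity)).2 ?_
      have a1 := Nat.lt_floor_add_one (w * J)
      have a2 := Nat.lt_floor_add_one (lam * J)
      push_cast
      linarith
    obtain ⟨φy, hφy⟩ := hy J F
    have h2 : CH (Pool.Agent.H49.Ent.cond F.p A True)
        (fun ω => cV0 I ⌊w * J⌋₊ ⌊(w + lam) * J⌋₊ F (slam F ⌊w * J⌋₊ ω))
        (fun ω => (z₁ ω, y J F ω)) ≤ m * (2 * Real.log 7) := by
      refine cV0_few hcl I hwJ (l := ⌊lam * J⌋₊) hn _ fun ω ω' e => ?_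
      have e1 := congrArg φy (Prod.ext_iff.mp e).2
      rw [hφy, hφy] at e1
      simp only [Prod.mk.injEq] at e1
      obtain ⟨e2, e3, e4⟩ := e1
      refine ⟨e2, fun i hi => ?_, fun i hi => ?_⟩
      · have := congrFun e3 i
        simpa only [if_pos hi] using this
      · have := congrFun e4 i
        simpa only [if_pos hi] using this
    have h3 := CH_subadd h0 (fun ω => cV0 I ⌊w * J⌋₊ ⌊(w + lam) * J⌋₊ F (slam F ⌊w * J⌋₊ ω))
      (fun ω => ((zv' (vg w J F ω), (vg w J F ω).2), fun j : Fin (Kv + 3) =>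
        ⌊jr F ⌊w * J⌋₊ (2 ^ (s' * J)) v zv' Gv j (vg w J F ω)⌋)) (fun ω => (z₁ ω, y J F ω))
    have h4 : CH (Pool.Agent.H49.Ent.cond F.p A True) (fun ω => c (vg w J F ω))
        (fun ω => (z₁ ω, y J F ω)) ≤ CH (Pool.Agent.H49.Ent.cond F.p A True)
        (fun ω => (cV0 I ⌊w * J⌋₊ ⌊(w + lam) * J⌋₊ F (slam F ⌊w * J⌋₊ ω),
          ((zv' (vg w J F ω), (vg w J F ω).2), fun j : Fin (Kv + 3) =>
        ⌊jr F ⌊w * J⌋₊ (2 ^ (s' * J)) v zv' Gv j (vg w J F ω)⌋))) (fun ω => (z₁ ω, y J F ω)) :=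
      CH_mono_left h0 fun ω ω' _ _ e => (hcc _ _).2 (Prod.ext_iff.mp e).1
    have h5 : 0 ≤ δ * q * J := by positivity
    have h6 : δ₀ * q * J = 16 * (δ * q * J) := by
      rw [hδ]
      ring
    rw [h6]
    linarith only [h1, h2, h3, h4, h5, f1]
  obtain ⟨e₁, he₁, H⟩ := Hp htm hw0.le (wa.trans aa) (by linarith) q0 (by linarith) r0 hf hyT
    (PsV I v w lam pv rv s' ev Kv) (fun J F A B C c hB h1 => h1.sub hB) hctx hnc hJκ
  refine ⟨e₁, he₁, fun e he hle K => Bas.mono 0 ((H e he hle K).and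
    (Pool.GRW.tmc_bas htm one_pos)) ?_⟩
  rintro J - F A ⟨H1, hA, -⟩ V z z' G hlb Vv zv zv' Gv hlv
  obtain ⟨V₁, z₁, hz₁, h1⟩ := H1 V z z' G hlb _ (fun x => vcode F I ⌊w * J⌋₊
    ⌊(w + lam) * J⌋₊ (2 ^ (s' * J)) v zv' Gv Kv x) ⟨Vv, zv, zv', Gv, hlv, fun _ _ => Iff.rfl⟩
  have hcl := isLaw_cond F.isLaw hA
  refine ⟨V₁, z₁, hz₁, le_trans (CH_mono_left hcl.nonneg fun ω ω' _ _ e => ?_) h1⟩
  simp only [Prod.mk.injEq] at e ⊢
  exact ⟨⟨e.1.1, e.1.2.2⟩, e.1.2.1⟩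

/-- **The own jets of `κ` are few bits given the ball**: the two-coordinate theorem. `I` is the
base, `y` knows the path over `I`; the rows of `κ` given the exact point over `I` and the exact
position of `v` are not full; `v` is full behind `s` digits at the window `a`, where the label of
`κ` has the precision `p + q`. The own path of `v` to `s'` digits is natural at the window `a'`. -/
theorem slow2 {h : ℝ} (hh : 0 < h) (hh1 : h ≤ 1) {ε : ℝ} (hε : 0 < ε) : ∃ δ : ℝ, 0 < δ ∧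
    ∀ {m : ℕ} {S : PCl m} {C₀ : ℝ} (_ : TmC S C₀) {I : Finset (Fin m)} {κ v : Fin m}
    {w a a' p q pa pa' pv s pva s' pva' lam r rv ρ : ℝ}
    (_ : Win2 w a a' p q pa pa' pv s pva s' pva' lam r rv ρ)
    {α γ : ∀ J : ℕ, Fam m J → Type} {f : ∀ (J : ℕ) (F : Fam m J), F.Ω → α J F}
    {y : ∀ (J : ℕ) (F : Fam m J), F.Ω → γ J F}
    (_ : ∀ (J : ℕ) (F : Fam m J), ∃ φ : α J F → PtT F, ∀ ω, ptr F J ω = φ (f J F ω))
    (_ : Kn I (w + lam) lam y),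
    Att S I κ w p r → Att S I κ a pa r → Att S I κ a' pa' r →
    Att S I v w pv rv → Att S I v a pva rv → Att S I v a' pva' rv →
    (∀ b : ℝ, w ≤ b → b ≤ a' → ∀ u : ℝ, b < u → u < 1 → Ful S I b u) →
    RawN S (insert v I) κ p q h (δ * q) → FulVe S I v a s (δ * q) → ∀ j : ℕ,
    ∃ e : ℝ, 0 < e ∧ F0 S f (vg a') y (qJet m I κ j w p (p + q - j * w)) e (ε * q) := by
  obtain ⟨δ, hδ, Hp⟩ := slow2_path hh hh1 (ε := ε / 4) (by positivity)
  refine ⟨δ, hδ, ?_⟩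
  intro m S C₀ htm I κ v w a a' p q pa pa' pv s pva s' pva' lam r rv ρ W α γ f y hf hy
    hκw hκa hκa' hvw hva hva' hful hraw hfv j
  obtain ⟨e₀, he₀, Hp⟩ := Hp htm W hf hy hκw hκa hκa' hvw hva hva' hful hraw hfv
  obtain ⟨r0, rw', rv0, rvw, wa, aa, al, l1, p0, q0, ρ0, ss, k1, k2, k3, k4, v1, v2, v3, v4⟩ := W
  have hw0 : 0 < w := by linarith
  obtain ⟨Kv, hKv⟩ := hvw e₀ he₀
  obtain ⟨e₁, he₁, Hp⟩ := Hp e₀ he₀ le_rfl Kv
  have hjw : p + q - j * w + j * w + ρ ≤ p + lam := by linarith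
  have Hs := few_jet_e (y := y) htm (I := I) (k := κ) (j := j) (w := w) (w₁ := w) (w₂ := w)
    (p₁ := p) (p₂ := p) (N₁ := p + q - j * w) (N₂ := p + q - j * w) (p₀ := w + lam)
    (lam := lam) (u₀ := w) le_rfl le_rfl (by linarith) le_rfl hw0.le (by linarith) l1.le
    (hful w le_rfl (by linarith)) hf hy le_rfl ρ0 (by
      have e1 : w + lam - w = lam := by ring
      rw [e1, min_self, min_self]
      exact hjw) (h := ε / 4 * q) (by positivity)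
  replace Hs := F1.up (wa.trans aa) (by linarith) Hs
  obtain ⟨e₂, he₂⟩ : ∃ e₂ : ℝ, e₂ = ρ / 4 := ⟨_, rfl⟩
  rw [← he₂] at Hs
  have he₂0 : 0 < e₂ := by rw [he₂]; positivity
  have he0 : 0 < min e₁ e₂ := lt_min he₁ he₂0
  refine ⟨min e₁ e₂, he0, fun K => ?_⟩
  obtain ⟨K₀, hK₀⟩ := hκw _ he0
  obtain ⟨M, J₁, hcnt⟩ := cnt_jet m K₀ j (N := p + q - j * w) (w := w) r0 he0
  obtain ⟨M₂, hM₂⟩ := jet_path (K₀ + 2) j
  have hl : 0 ≤ Real.log (2 * M₂ + 1) := Real.log_nonneg (by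
    have : (0 : ℝ) ≤ M₂ := Nat.cast_nonneg _
    linarith)
  obtain ⟨J₂, hJ₂⟩ := exists_nat_ge (Real.log (2 * M₂ + 1) / (ε / 4 * q))
  refine Bas.mono (max J₁ J₂) ((hK₀.and (hKv.and (Hp _ he0 (min_le_left _ _) K₀))).and
    ((Hs (max K (max K₀ M))).and (Pool.GRW.tmc_bas htm one_pos))) ?_
  rintro J hJ F A ⟨⟨⟨V, z, z', G, hlb⟩, ⟨Vv, zv, zv', Gv, hlv⟩, HP⟩, HS, hA, -⟩ u hu
  have hJ1 : J₁ ≤ J := (le_max_left _ _).trans hJ
  have hJ2 : (J₂ : ℝ) ≤ J := by exact_mod_cast (le_max_right _ _).trans hJ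
  have hJ0 : (0 : ℝ) ≤ J := Nat.cast_nonneg J
  have f1 : Real.log (2 * M₂ + 1) ≤ ε / 4 * q * J := by
    have : Real.log (2 * M₂ + 1) / (ε / 4 * q) ≤ J := hJ₂.trans hJ2
    rw [div_le_iff₀ (by positivity)] at this
    linarith
  have hcl := isLaw_cond F.isLaw hA
  have h0 := hcl.nonneg
  have hwJ : ⌊w * J⌋₊ ≤ J := floor_le (by linarith) J
  -- the jets over the label of the class
  obtain ⟨u₁, hu₁⟩ : ∃ u₁ : F.Ω → ℤ, u₁ = fun ω => ⌊(2 : ℝ) ^ ((p + q - j * w) * J) *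
    ojet F κ j (G (z' (slam F ⌊w * J⌋₊ ω))) ω⌋ := ⟨_, rfl⟩
  obtain ⟨V₁, z₁, hz₁, h1⟩ := HP V z z' G hlb Vv zv zv' Gv hlv
  have hP₁ : (qJet m I κ j w p (p + q - j * w)).P (max K (max K₀ M)) (min e₁ e₂) J F A u₁ := by
    refine ⟨?_, V, z, z', G, ?_, fun ω _ => by rw [hu₁]⟩
    · rw [hu₁]
      refine (hcnt J hJ1 F I κ _ A V z z' G hlb).trans (Real.exp_le_exp.2 ?_)
      refine mul_le_mul_of_nonneg_right ?_ hJ0
      exact_mod_cast (le_max_right _ _).trans (le_max_right _ _)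
    · exact (LbP.of hlb).mono (Finset.Subset.refl _)
        ((le_max_left _ _).trans (le_max_right _ _)) le_rfl
  obtain ⟨V₂, z₂, hz₂, h2⟩ := HS u₁ u ((qJet m I κ j w p (p + q - j * w)).mono le_rfl
    (min_le_right _ _) hP₁) ((qJet m I κ j w p (p + q - j * w)).mono (le_max_left _ _)
    (min_le_right _ _) hu)
  refine ⟨_, fun ω => (z₁ ω, z₂ ω), hz₁.join hz₂, ?_⟩
  obtain ⟨X, hX⟩ : ∃ X : F.Ω → (V × (F.ζ × ℕ)) × (Fin (K₀ + 3) → ℤ), X = fun ω =>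
    ((z' (vg w J F ω), (vg w J F ω).2), fun j : Fin (K₀ + 3) =>
      ⌊jr F ⌊w * J⌋₊ (2 ^ ((p + q) * J)) κ z' G j (vg w J F ω)⌋) := ⟨_, rfl⟩
  have h1' : CH (Pool.Agent.H49.Ent.cond F.p A True) X (fun ω => (z₁ ω, y J F ω)) ≤
      ε / 4 * q * J := by
    refine le_trans (CH_mono_left h0 fun ω ω' _ _ e => ?_) h1
    rw [hX]
    exact (Prod.ext_iff.mp (Prod.ext_iff.mp e).1).1
  obtain ⟨φT, hφT⟩ := hy J F
  have h3 : CH (Pool.Agent.H49.Ent.cond F.p A True) u₁ (fun ω => (X ω, (z₁ ω, y J F ω))) ≤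
      Real.log (2 * M₂ + 1) := by
    rw [hu₁]
    refine hM₂ hw0.le hwJ (fun v => ?_) hcl (fun ω => (X ω, (z₁ ω, y J F ω)))
      fun ω ω' _ _ e => ?_
    · refine (MvPolynomial.totalDegree_sub _ _).trans (max_le ?_ ?_)
      · exact (totalDegree_X _).le.trans (by omega)
      · exact (hlb.deg v).trans (by omega)
    · simp only [Prod.mk.injEq] at e
      refine ⟨?_, fun i hi => ?_⟩
      · have e2 := congrArg φT e.2.2
        rw [hφT, hφT] at e2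
        exact (Prod.ext_iff.mp e2).1
      · have e1 := e.1
        rw [hX] at e1
        simp only [Prod.mk.injEq] at e1
        exact congrFun e1.2 ⟨i, by omega⟩
  have s1 := CH_le_add h0 u u₁ (fun ω => ((z₁ ω, z₂ ω), y J F ω))
  have s2 : CH (Pool.Agent.H49.Ent.cond F.p A True) u₁ (fun ω => ((z₁ ω, z₂ ω), y J F ω)) ≤
      CH (Pool.Agent.H49.Ent.cond F.p A True) u₁ (fun ω => (z₁ ω, y J F ω)) :=
    CH_mono_cond h0 fun ω ω' _ _ e => by
      simp only [Prod.mk.injEq] at e ⊢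
      exact ⟨e.1.1, e.2⟩
  have s3 := CH_le_add h0 u₁ X (fun ω => (z₁ ω, y J F ω))
  have s4 : CH (Pool.Agent.H49.Ent.cond F.p A True) u (fun ω => (u₁ ω, ((z₁ ω, z₂ ω), y J F ω))) ≤
      CH (Pool.Agent.H49.Ent.cond F.p A True) u (fun ω => (u₁ ω, (z₂ ω, y J F ω))) :=
    CH_mono_cond h0 fun ω ω' _ _ e => by
      simp only [Prod.mk.injEq] at e ⊢
      exact ⟨e.1, e.2.1.2, e.2.2⟩
  have s5 : 0 ≤ ε * q * J := by positivity
  linarith only [s1, s2, s3, s4, h1', h2, h3, f1, s5]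

end Pool.OWN54
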